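import Mathlib

set_option autoImplicit false
open Set Filter Topology

namespace Pool.Agent.H.MP_866d96_co

variable {E : Type*} [NormedAddCommGroup E] [InnerProductSpace ℝ E]

abbrev Fc (A : Set E) := {F : Set E // IsExposed ℝ A F}

abbrev Cl {ι : Type*} (I : ι → ι → Prop) := {W : Set ι // ∃ J : Set ι, W = {i | ∀ j ∈ J, I i j}}

lemma wts (T : Finset E) {F : Set E} (hF : IsExposed ℝ (convexHull ℝ (T : Set E)) F) {x : E}
    (hx : x ∈ F) : ∃ w : E → ℝ, (∀ t ∈ T, 0 ≤ w t) ∧ ∑ t ∈ T, w t = 1 ∧ ∑ t ∈ T, w t • t = x ∧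
      ∀ t ∈ T, w t ≠ 0 → t ∈ F := by
  obtain ⟨l, rfl⟩ := hF ⟨x, hx⟩
  obtain ⟨w, h0, h1, h2⟩ := Finset.mem_convexHull'.1 hx.1
  refine ⟨w, h0, h1, h2, fun t ht hw => ?_⟩
  have hT : ∀ s ∈ T, s ∈ convexHull ℝ (T : Set E) := fun s hs => subset_convexHull ℝ _ hs
  have hs : ∑ s ∈ T, w s * (l x - l s) = 0 := by
    simp_rw [mul_sub, Finset.sum_sub_distrib, ← Finset.sum_mul, h1, one_mul]
    rw [← h2, map_sum]; simp
  have h3 := (Finset.sum_eq_zero_iff_of_nonneg (fun s hs =>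
    mul_nonneg (h0 s hs) (sub_nonneg.2 (hx.2 s (hT s hs))))).1 hs t ht
  have h4 : l x = l t := by
    rcases mul_eq_zero.1 h3 with h | h
    · exact absurd h hw
    · linarith
  exact ⟨hT t ht, fun y hy => h4 ▸ hx.2 y hy⟩

lemma sub_of (T : Finset E) {F G : Set E} (hF : IsExposed ℝ (convexHull ℝ (T : Set E)) F)
    (hG : Convex ℝ G) (h : ∀ t ∈ T, t ∈ F → t ∈ G) : F ⊆ G := by
  classical
  intro x hx
  obtain ⟨w, h0, h1, h2, h3⟩ := wts T hF hx
  rw [← h2, ← Finset.sum_filter_of_ne (p := fun t => w t ≠ 0) (fun t _ h hw => h (by simp [hw]))]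
  refine hG.sum_mem (fun t ht => h0 t (Finset.mem_filter.1 ht).1) ?_ (fun t ht => ?_)
  · rw [Finset.sum_filter_ne_zero, h1]
  · exact h t (Finset.mem_filter.1 ht).1 (h3 t (Finset.mem_filter.1 ht).1 (Finset.mem_filter.1 ht).2)

lemma le_of (T : Finset E) (l : E →L[ℝ] ℝ) (M : ℝ) (h : ∀ t ∈ T, l t ≤ M) :
    ∀ y ∈ convexHull ℝ (T : Set E), l y ≤ M := by
  intro y hy
  exact convexHull_min (t := {y | l y ≤ M}) (fun t ht => h t ht)
    (convex_halfSpace_le l.toLinearMap.isLinear M) hy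

lemma atom_single (T : Finset E) {G : Set E} (hG : IsExposed ℝ (convexHull ℝ (T : Set E)) G)
    (hn : G.Nonempty) (hm : ∀ G', IsExposed ℝ (convexHull ℝ (T : Set E)) G' → G'.Nonempty →
      G' ⊆ G → G' = G) : ∃ z, G = {z} := by
  classical
  have hT : ∀ s ∈ T, s ∈ convexHull ℝ (T : Set E) := fun s hs => subset_convexHull ℝ _ hs
  have hne : (T.filter (· ∈ G)).Nonempty := by
    by_contra h
    obtain ⟨x, hx⟩ := hn
    exact sub_of T hG convex_empty (fun t ht h' => h ⟨t, Finset.mem_filter.2 ⟨ht, h'⟩⟩) hx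
  obtain ⟨t0, ht0, hmax⟩ := Finset.exists_max_image _ (fun t : E => ‖t‖) hne
  obtain ⟨ht0T, ht0G⟩ := Finset.mem_filter.1 ht0
  obtain ⟨l, hl⟩ := hG hn
  have hl0 : ∀ y ∈ convexHull ℝ (T : Set E), l y ≤ l t0 := by
    rw [hl] at ht0G; exact ht0G.2
  have hev : ∀ᶠ e : ℝ in 𝓝[>] 0, ∀ t ∈ T, t ≠ t0 →
      l t + e * inner ℝ t0 t < l t0 + e * inner ℝ t0 t0 := by
    rw [Filter.eventually_all_finset]
    intro t ht
    by_cases hG' : t ∈ G
    · filter_upwards [self_mem_nhdsWithin] with e he hne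
      have h1 : l t ≤ l t0 := hl0 t (hT t ht)
      have h2 := hmax t (Finset.mem_filter.2 ⟨ht, hG'⟩)
      have h3 : 0 < ‖t0 - t‖ ^ 2 := by
        have : t0 - t ≠ 0 := sub_ne_zero.2 (Ne.symm hne)
        positivity
      rw [norm_sub_sq_real] at h3
      have h4 : inner ℝ t0 t < inner ℝ t0 t0 := by
        rw [real_inner_self_eq_norm_sq]
        nlinarith [norm_nonneg t, norm_nonneg t0]
      have he' : 0 < e := he
      nlinarith
    · have h1 : l t < l t0 := by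
        by_contra h
        apply hG'
        rw [hl]
        exact ⟨hT t ht, fun y hy => (hl0 y hy).trans (not_lt.1 h)⟩
      have hc : ∀ᶠ e : ℝ in 𝓝 0, l t + e * inner ℝ t0 t < l t0 + e * inner ℝ t0 t0 := by
        apply ContinuousAt.eventually_lt (by fun_prop) (by fun_prop)
        simpa using h1
      filter_upwards [nhdsWithin_le_nhds hc] with e he _ using he
  obtain ⟨e, he⟩ := hev.exists
  set l' : E →L[ℝ] ℝ := l + e • innerSL ℝ t0 with hl'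
  have hl'a : ∀ t, l' t = l t + e * inner ℝ t0 t := fun t => by simp [hl']
  have hle : ∀ y ∈ convexHull ℝ (T : Set E), l' y ≤ l' t0 := le_of T l' _ (fun t ht => by
    by_cases h : t = t0
    · rw [h]
    · rw [hl'a, hl'a]; exact (he t ht h).le)
  have hs : l'.toExposed (convexHull ℝ (T : Set E)) ⊆ {t0} :=
    sub_of T ContinuousLinearMap.toExposed.isExposed (convex_singleton _) (fun t ht h => by
      by_contra hne
      have h1 := h.2 t0 (hT t0 ht0T)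
      rw [hl'a, hl'a] at h1
      exact absurd (he t ht hne) (not_lt.2 h1))
  have hm0 : t0 ∈ l'.toExposed (convexHull ℝ (T : Set E)) := ⟨hT t0 ht0T, hle⟩
  refine ⟨t0, ?_⟩
  rw [← hm _ ContinuousLinearMap.toExposed.isExposed ⟨t0, hm0⟩
    (hs.trans (singleton_subset_iff.2 ht0G))]
  exact hs.antisymm (singleton_subset_iff.2 hm0)

def Pol (Q : Set E) (V : E ≃ₗᵢ[ℝ] E) : Prop := {y : E | ∀ x ∈ Q, inner ℝ x y ≤ (1 : ℝ)} = V '' Q

def FV (Q : Set E) (V : E ≃ₗᵢ[ℝ] E) (z : E) : Set E := {w ∈ Q | inner ℝ w (V z) = (1 : ℝ)}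

lemma Pol.le {Q : Set E} {V : E ≃ₗᵢ[ℝ] E} (h : Pol Q V) {x z : E} (hx : x ∈ Q) (hz : z ∈ Q) :
    inner ℝ x (V z) ≤ (1 : ℝ) := by
  have : V z ∈ V '' Q := ⟨z, hz, rfl⟩
  rw [← h] at this
  exact this x hx

lemma inn (V : E ≃ₗᵢ[ℝ] E) (x z : E) : inner ℝ x (V z) = inner ℝ z (V.symm x) := by
  rw [← V.inner_map_map z, V.apply_symm_apply, real_inner_comm]

variable [CompleteSpace E]

lemma pol_symm {Q : Set E} {V : E ≃ₗᵢ[ℝ] E} (h : Pol Q V) (hc : Convex ℝ Q) (hcl : IsClosed Q)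
    (h0 : (0 : E) ∈ Q) : Pol Q V.symm := by
  ext y
  constructor
  · intro hy
    refine ⟨V y, ?_, by simp⟩
    by_contra hn
    obtain ⟨f, u, h1, h2⟩ := geometric_hahn_banach_closed_point hc hcl hn
    have hu : 0 < u := by simpa using h1 0 h0
    have hi : ∀ x, inner ℝ x (u⁻¹ • (InnerProductSpace.toDual ℝ E).symm f) = u⁻¹ * f x := fun x => by
      rw [inner_smul_right, real_inner_comm, InnerProductSpace.toDual_symm_apply]
    have : u⁻¹ • (InnerProductSpace.toDual ℝ E).symm f ∈ V '' Q := by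
      rw [← h]
      intro x hx
      rw [hi, inv_mul_le_iff₀ hu]; simpa using (h1 x hx).le
    obtain ⟨x, hx, hx'⟩ := this
    have h3 := hi (V y)
    rw [← hx', V.inner_map_map, real_inner_comm] at h3
    have h4 := hy x hx
    rw [h3, inv_mul_le_iff₀ hu] at h4
    linarith
  · rintro ⟨z, hz, rfl⟩ x hx
    rw [← inn]; exact h.le hz hx

omit [CompleteSpace E] in
lemma FV_exp {Q : Set E} {V : E ≃ₗᵢ[ℝ] E} (h : Pol Q V) {z : E} (hz : z ∈ Q) :
    IsExposed ℝ Q (FV Q V z) := by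
  rintro ⟨w, hw⟩
  refine ⟨innerSL ℝ (V z), ?_⟩
  ext x
  have hi : ∀ y, innerSL ℝ (V z) y = inner ℝ y (V z) := fun y => by
    rw [innerSL_apply_apply, real_inner_comm]
  refine ⟨fun hx => ⟨hx.1, fun y hy => ?_⟩, fun hx => ⟨hx.1, ?_⟩⟩
  · rw [hi, hi, hx.2]; exact h.le hy hz
  · have h1 := hx.2 w hw.1
    rw [hi, hi, hw.2] at h1
    exact le_antisymm (h.le hx.1 hz) h1

lemma rep {Q G : Set E} {V : E ≃ₗᵢ[ℝ] E} (h : Pol Q V) (h0 : (0 : E) ∈ interior Q)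
    (hG : IsExposed ℝ Q G) (hn : G.Nonempty) (hne : G ≠ Q) : ∃ x ∈ Q, G = FV Q V x := by
  obtain ⟨l, rfl⟩ := hG hn
  obtain ⟨g, hg⟩ := hn
  obtain ⟨q, hq, hql⟩ : ∃ q ∈ Q, l q < l g := by
    by_contra hc
    push Not at hc
    exact hne (Subset.antisymm (fun x hx => hx.1) (fun x hx => ⟨hx, fun y hy =>
      (hg.2 y hy).trans (hc x hx)⟩))
  have hM : 0 < l g := by
    have hc : ∀ᶠ t : ℝ in 𝓝 0, t • (-q) ∈ Q := by
      have : Tendsto (fun t : ℝ => t • (-q)) (𝓝 0) (𝓝 0) := by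
        have h1 : Continuous (fun t : ℝ => t • (-q)) := by fun_prop
        simpa using h1.tendsto 0
      exact this (mem_interior_iff_mem_nhds.1 h0)
    obtain ⟨t, ht, ht'⟩ := ((hc.filter_mono (nhdsWithin_le_nhds (s := Ioi 0))).and
      self_mem_nhdsWithin).exists
    have h1 := hg.2 _ ht
    have h2 := hg.2 0 (interior_subset h0)
    simp only [map_smul, map_neg, smul_eq_mul, map_zero] at h1 h2
    have ht'' : 0 < t := ht'
    by_contra hc
    nlinarith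
  have hi : ∀ x, inner ℝ x ((l g)⁻¹ • (InnerProductSpace.toDual ℝ E).symm l) = (l g)⁻¹ * l x :=
    fun x => by rw [inner_smul_right, real_inner_comm, InnerProductSpace.toDual_symm_apply]
  have : (l g)⁻¹ • (InnerProductSpace.toDual ℝ E).symm l ∈ V '' Q := by
    rw [← h]
    intro x hx
    rw [hi, inv_mul_le_iff₀ hM]; simpa using hg.2 x hx
  obtain ⟨x, hx, hx'⟩ := this
  refine ⟨x, hx, ?_⟩
  ext y
  simp only [FV, mem_ofPred_eq, hx', hi, inv_mul_eq_one₀ hM.ne']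
  exact ⟨fun hy => ⟨hy.1, le_antisymm (hy.2 g hg.1) (hg.2 y hy.1)⟩,
    fun hy => ⟨hy.1, fun w hw => hy.2 ▸ hg.2 w hw⟩⟩

lemma key {Q : Set E} {V : E ≃ₗᵢ[ℝ] E} (h : Pol Q V.symm) (h0 : (0 : E) ∈ interior Q) {z : E}
    (hz : IsExposed ℝ Q {z}) (hne : {z} ≠ Q) :
    (FV Q V z).Nonempty ∧ ∀ x ∈ Q, FV Q V z ⊆ FV Q V x → x = z := by
  obtain ⟨w, hw, hw'⟩ := rep h h0 hz (singleton_nonempty z) hne
  have h1 : z ∈ FV Q V.symm w := hw' ▸ rfl
  have h2 : w ∈ FV Q V z := ⟨hw, by rw [inn]; exact h1.2⟩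
  refine ⟨⟨w, h2⟩, fun x hx hs => ?_⟩
  have h3 : x ∈ FV Q V.symm w := ⟨hx, by rw [← inn]; exact (hs h2).2⟩
  rw [← hw'] at h3
  exact h3

lemma half {ι : Type*} [Finite ι] [Nontrivial ι] {I : ι → ι → Prop} {Q : Set E}
    (Φ : Cl I ≃o Fc Q) (h0 : (0 : E) ∈ interior Q) {V : E ≃ₗᵢ[ℝ] E} (h : Pol Q V)
    (h' : Pol Q V.symm) (a : ι → Cl I) (ha : ∀ i, (a i).1 = {i}) (z : ι → E)
    (hz : ∀ i, (Φ (a i)).1 = {z i}) :
    ∃ σ : ι ≃ ι, (∀ i k, inner ℝ (z i) (V (z k)) = (1 : ℝ) ↔ I i (σ k)) ∧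
      ∀ k, ∀ x ∈ Q, (∀ i, inner ℝ (z i) (V x) = (1 : ℝ) ↔ I i (σ k)) → x = z k := by
  have hzQ : ∀ i, z i ∈ Q := fun i => (Φ (a i)).2.subset (hz i ▸ rfl)
  have hmem : ∀ i (F : Cl I), z i ∈ (Φ F).1 ↔ i ∈ F.1 := fun i F => by
    rw [← singleton_subset_iff, ← singleton_subset_iff, ← hz, ← ha]
    exact Φ.le_iff_le
  have hinj : Function.Injective z := fun i k hik => by
    have : z i ∈ (Φ (a k)).1 := by rw [hz, hik]; rfl
    rw [hmem, ha] at this; exact this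
  have hne : ∀ i, {z i} ≠ Q := fun i hi => by
    obtain ⟨k, hk⟩ := exists_ne i
    have := hzQ k
    rw [← hi] at this
    exact hk (hinj this)
  have hk := fun k => key h' h0 (hz k ▸ (Φ (a k)).2) (hne k)
  have hsub : ∀ F G : Fc Q, (∀ i, z i ∈ F.1 → z i ∈ G.1) → F.1 ⊆ G.1 := fun F G hFG => by
    have : Φ.symm F ≤ Φ.symm G := fun i hi => by
      rw [← hmem, Φ.apply_symm_apply] at hi ⊢
      exact hFG i hi
    exact Φ.symm.le_iff_le.1 this
  have hex : ∀ k, ∃ j, ∀ i, inner ℝ (z i) (V (z k)) = (1 : ℝ) ↔ I i j := fun k => by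
    set F : Fc Q := ⟨FV Q V (z k), FV_exp h (hzQ k)⟩ with hF
    obtain ⟨J, hJ⟩ := (Φ.symm F).2
    have hF' : ∀ i, z i ∈ F.1 ↔ ∀ j ∈ J, I i j := fun i => by
      have := hmem i (Φ.symm F)
      rw [Φ.apply_symm_apply, hJ] at this
      exact this
    obtain ⟨i0, hi0⟩ : ∃ i, z i ∉ F.1 := by
      by_contra hc
      push Not at hc
      have := hsub ⟨Q, IsExposed.refl Q⟩ F (fun i _ => hc i) (interior_subset h0)
      simpa using this.2
    obtain ⟨j, hj, hij⟩ : ∃ j ∈ J, ¬ I i0 j := by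
      rw [hF'] at hi0; push Not at hi0; exact hi0
    set G : Cl I := ⟨{i | ∀ j' ∈ ({j} : Set ι), I i j'}, _, rfl⟩ with hG
    have hG' : ∀ i, z i ∈ (Φ G).1 ↔ I i j := fun i => by rw [hmem]; simp [hG]
    have hFG : F.1 ⊆ (Φ G).1 := hsub _ _ (fun i hi => (hG' i).2 ((hF' i).1 hi j hj))
    obtain ⟨x, hx, hx'⟩ := rep h h0 (Φ G).2 ((hk k).1.mono hFG) (fun hc =>
      hij ((hG' i0).1 (by rw [hc]; exact hzQ i0)))
    have := (hk k).2 x hx (hx' ▸ hFG)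
    refine ⟨j, fun i => ?_⟩
    rw [← hG', hx', this]
    exact ⟨fun h => ⟨hzQ i, h⟩, fun h => h.2⟩
  choose s hs using hex
  have h2 : ∀ k, ∀ x ∈ Q, (∀ i, inner ℝ (z i) (V x) = (1 : ℝ) ↔ I i (s k)) → x = z k :=
    fun k x hx hi => (hk k).2 x hx (hsub ⟨_, FV_exp h (hzQ k)⟩ ⟨_, FV_exp h hx⟩
      (fun i h => ⟨hzQ i, (hi i).2 ((hs k i).1 h.2)⟩))
  have hsi : Function.Injective s := fun k k' hkk =>
    hinj (h2 k' _ (hzQ k) (fun i => hkk ▸ hs k i))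
  exact ⟨Equiv.ofBijective s (Finite.injective_iff_bijective.1 hsi), fun i k => hs k i, h2⟩

theorem extract {ι : Type*} [Finite ι] [Nontrivial ι] {I : ι → ι → Prop}
    (hrow : ∀ i, ∃ j, ¬ I i j) (hsing : ∀ i i', (∀ j, I i j → I i' j) → i' = i) (T : Finset E)
    (U : E ≃ₗᵢ[ℝ] E) (Φ : Cl I ≃o Fc (convexHull ℝ (T : Set E)))
    (h0 : (0 : E) ∈ interior (convexHull ℝ (T : Set E)))
    (h : Pol (convexHull ℝ (T : Set E)) U) :
    ∃ (z : ι → E) (σ ρ : ι ≃ ι), (∀ i k, inner ℝ (z i) (U (z k)) = (1 : ℝ) ↔ I i (σ k)) ∧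
      (∀ i k, I i (σ k) ↔ I k (ρ i)) ∧ ∀ i, z (σ.symm (ρ i)) = U.symm (U.symm (z i)) := by
  have h' := pol_symm h (convex_convexHull ℝ _) (T.finite_toSet.isClosed_convexHull ℝ)
    (interior_subset h0)
  let a : ι → Cl I := fun i => ⟨{i}, {j | I i j}, by
    ext i'
    exact ⟨fun h j hj => h ▸ hj, fun h => hsing i i' h⟩⟩
  let e : Cl I := ⟨∅, univ, by
    ext i
    obtain ⟨j, hj⟩ := hrow i
    exact ⟨fun h => h.elim, fun h => hj (h j trivial)⟩⟩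
  have hb : ∀ F : Cl I, (Φ F).1.Nonempty ↔ F.1.Nonempty := fun F => by
    rw [nonempty_iff_ne_empty, nonempty_iff_ne_empty]
    apply not_congr
    constructor
    · intro hF
      have : Φ F ≤ Φ e := fun x hx => by rw [hF] at hx; exact hx.elim
      exact subset_empty_iff.1 (Φ.le_iff_le.1 this)
    · intro hF
      have : F ≤ Φ.symm ⟨∅, isExposed_empty⟩ := fun x hx => by rw [hF] at hx; exact hx.elim
      exact subset_empty_iff.1 (Φ.le_symm_apply.1 this)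
  have hz : ∀ i, ∃ z, (Φ (a i)).1 = {z} := fun i => by
    refine atom_single T (Φ (a i)).2 ((hb _).2 (singleton_nonempty i)) (fun G hG hn hs => ?_)
    have h1 : Φ.symm ⟨G, hG⟩ ≤ a i := Φ.symm_apply_le.2 hs
    have h2 : (Φ.symm ⟨G, hG⟩).1.Nonempty := (hb _).1 (by rw [Φ.apply_symm_apply]; exact hn)
    have h3 : Φ.symm ⟨G, hG⟩ = a i := Subtype.ext (h2.subset_singleton_iff.1 h1)
    rw [← h3, Φ.apply_symm_apply]
  choose z hz using hz
  have hzQ : ∀ i, z i ∈ convexHull ℝ (T : Set E) := fun i => (Φ (a i)).2.subset (hz i ▸ rfl)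
  obtain ⟨σ, h1, h2⟩ := half Φ h0 h h' a (fun _ => rfl) z hz
  obtain ⟨ρ, h3, -⟩ := half Φ h0 h' h a (fun _ => rfl) z hz
  refine ⟨z, σ, ρ, h1, fun i k => by rw [← h1, ← h3, inn], fun i => (h2 _ _ ?_ ?_).symm⟩
  · have : U.symm (z i) ∈ U.symm '' convexHull ℝ (T : Set E) := ⟨_, hzQ i, rfl⟩
    rw [← h', h] at this
    obtain ⟨x, hx, hx'⟩ := this
    rw [← hx']; simpa using hx
  · intro k
    rw [U.apply_symm_apply, h3, σ.apply_symm_apply]

end Pool.Agent.H.MP_866d96_co
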