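import Pool.Agent.H.MP_866d96_co.A

set_option autoImplicit false
open Set Module

namespace Pool.Agent.H.MP_866d96_co

theorem selfdual {ι : Type*} {I : ι → ι → Prop} (r : ι → ι) (hr : Function.Surjective r)
    (h : ∀ i k, I i k ↔ I k (r i)) : Nonempty (Cl I ≃o (Cl I)ᵒᵈ) := by
  let f : Cl I → (Cl I)ᵒᵈ := fun W => OrderDual.toDual ⟨{k | ∀ i ∈ W.1, I i k}, r '' W.1, by
    ext k; simp [← h]⟩
  have hf : ∀ a b, f a ≤ f b ↔ a ≤ b := fun a b => by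
    constructor
    · intro hab i hi
      obtain ⟨J, hJ⟩ := b.2
      rw [hJ]
      intro j hj
      have h1 : j ∈ {k | ∀ i ∈ b.1, I i k} := fun i hi => by rw [hJ] at hi; exact hi j hj
      exact hab h1 i hi
    · intro hab k hk i hi
      exact hk i (hab hi)
  refine ⟨RelIso.ofSurjective (OrderEmbedding.ofMapLEIff f hf) ?_⟩
  rintro ⟨C, J, rfl⟩
  refine ⟨⟨{i | ∀ k ∈ {k | ∀ j ∈ J, I k j}, I i k}, _, rfl⟩, Subtype.ext ?_⟩
  ext k
  refine ⟨fun hk j hj => ?_, fun hk i hi => hi k hk⟩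
  obtain ⟨i, rfl⟩ := hr j
  exact (h i k).1 (hk i (fun k' hk' => (h i k').2 (hk' _ hj)))

theorem build {ι : Type*} [Fintype ι] [Nonempty ι] {W : Type*} [AddCommGroup W] [Module ℝ W]
    [FiniteDimensional ℝ W] (X : ι → W) (Y : ι → W →ₗ[ℝ] ℝ) (I : ι → ι → Prop)
    (h0 : ∀ i j, 0 ≤ Y j (X i)) (hI : ∀ i j, I i j ↔ Y j (X i) = 0) (hrow : ∀ i, ∃ j, ¬ I i j)
    (hc : ∀ φ : W →ₗ[ℝ] ℝ, (∀ i, 0 ≤ φ (X i)) → ∀ i, φ (X i) ≠ 0 →
      ∃ j, ¬ I i j ∧ ∀ k, φ (X k) = 0 → I k j) :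
    ∃ d, d + 1 ≤ finrank ℝ W ∧ ∃ S : Finset (EuclideanSpace ℝ (Fin d)),
      (interior (convexHull ℝ (S : Set (EuclideanSpace ℝ (Fin d))))).Nonempty ∧
      Nonempty (Fc (convexHull ℝ (S : Set (EuclideanSpace ℝ (Fin d)))) ≃o Cl I) := by
  classical
  obtain ⟨i0⟩ := ‹Nonempty ι›
  set L : W →ₗ[ℝ] ℝ := ∑ j, Y j with hL
  have hLp : ∀ i, 0 < L (X i) := fun i => by
    obtain ⟨j, hj⟩ := hrow i
    rw [hL, LinearMap.sum_apply]
    exact Finset.sum_pos' (fun j _ => h0 i j)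
      ⟨j, Finset.mem_univ j, lt_of_le_of_ne (h0 i j) (fun h => hj ((hI i j).2 h.symm))⟩
  set P : ι → W := fun i => (L (X i))⁻¹ • X i with hP
  have hP1 : ∀ i, L (P i) = 1 := fun i => by simp [hP, (hLp i).ne']
  have hPf : ∀ (φ : W →ₗ[ℝ] ℝ) i, φ (X i) = L (X i) * φ (P i) := fun φ i => by
    simp [hP, (hLp i).ne']
  set V : Submodule ℝ W := Submodule.span ℝ (range fun i => P i - P i0) with hV
  have hm : ∀ i, P i - P i0 ∈ V := fun i => Submodule.subset_span ⟨i, rfl⟩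
  have hVL : V ≤ LinearMap.ker L := Submodule.span_le.2 (by
    rintro _ ⟨i, rfl⟩; simp [hP1])
  let e : V ≃ₗ[ℝ] EuclideanSpace ℝ (Fin (finrank ℝ V)) := LinearEquiv.ofFinrankEq _ _ (by simp)
  let x : ι → EuclideanSpace ℝ (Fin (finrank ℝ V)) := fun i => e ⟨_, hm i⟩
  refine ⟨finrank ℝ V, Submodule.finrank_lt (fun h => ?_), Finset.univ.image x, ?_, ?_⟩
  · have := hVL (h ▸ Submodule.mem_top : P i0 ∈ V)
    simp [hP1] at this
  · have hx0 : x i0 = 0 := by simp [x]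
    rw [interior_convexHull_nonempty_iff_affineSpan_eq_top, Finset.coe_image, Finset.coe_univ,
      image_univ, AffineSubspace.affineSpan_eq_top_iff_vectorSpan_eq_top_of_nonempty ℝ _ _
        (range_nonempty x), vectorSpan_eq_span_vsub_set_right ℝ (mem_range_self i0), hx0]
    have h1 := (Submodule.span_range_subtype_eq_top_iff V hm).2 rfl
    have h2 := congrArg (Submodule.map e.toLinearMap) h1
    rw [Submodule.map_span, ← range_comp, Submodule.map_top, LinearEquiv.range] at h2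
    simp only [vsub_eq_sub, sub_zero, image_id']
    exact h2
  set S := Finset.univ.image x with hS
  have hxS : ∀ i, x i ∈ convexHull ℝ (S : Set _) := fun i =>
    subset_convexHull ℝ _ (Finset.mem_image_of_mem x (Finset.mem_univ i))
  have hle : ∀ (l : EuclideanSpace ℝ (Fin (finrank ℝ V)) →L[ℝ] ℝ) i,
      x i ∈ l.toExposed (convexHull ℝ (S : Set _)) ↔ ∀ k, l (x k) ≤ l (x i) := fun l i =>
    ⟨fun h k => h.2 _ (hxS k), fun h => ⟨hxS i, le_of S l _ (fun t ht => by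
      obtain ⟨k, -, rfl⟩ := Finset.mem_image.1 ht; exact h k)⟩⟩
  have hsub : ∀ (F : Fc (convexHull ℝ (S : Set _))) G, Convex ℝ G → (∀ i, x i ∈ F.1 → x i ∈ G) →
      F.1 ⊆ G := fun F G hG h => sub_of S F.2 hG (fun t ht => by
      obtain ⟨k, -, rfl⟩ := Finset.mem_image.1 ht; exact h k)
  have hcl : ∀ F : Fc (convexHull ℝ (S : Set _)), ∃ J : Set ι,
      {i | x i ∈ F.1} = {i | ∀ j ∈ J, I i j} := fun F => by
    by_cases hne : ∃ i, x i ∈ F.1
    swap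
    · refine ⟨univ, ?_⟩
      ext i
      obtain ⟨j, hj⟩ := hrow i
      exact ⟨fun h => (hne ⟨i, h⟩).elim, fun h => (hj (h j trivial)).elim⟩
    obtain ⟨i1, hi1⟩ := hne
    obtain ⟨l, hl⟩ := F.2 ⟨_, hi1⟩
    have hF : ∀ i, x i ∈ F.1 ↔ ∀ k, l (x k) ≤ l (x i) := fun i => by rw [hl]; exact hle l i
    obtain ⟨ψ, hψ⟩ := LinearMap.exists_extend (l.toLinearMap ∘ₗ e.toLinearMap)
    have hψ' : ∀ i, ψ (P i) - ψ (P i0) = l (x i) := fun i => by
      rw [← map_sub]; exact LinearMap.congr_fun hψ ⟨_, hm i⟩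
    set φ : W →ₗ[ℝ] ℝ := (l (x i1) + ψ (P i0)) • L - ψ with hφ
    have hφ' : ∀ i, φ (X i) = L (X i) * (l (x i1) - l (x i)) := fun i => by
      rw [hPf φ, ← hψ' i]; simp [hφ, hP1]; left; ring
    have hz : ∀ i, x i ∈ F.1 ↔ φ (X i) = 0 := fun i => by
      rw [hF, hφ', mul_eq_zero, or_iff_right (hLp i).ne', sub_eq_zero]
      exact ⟨fun h => le_antisymm (h i1) ((hF i1).1 hi1 i), fun h k => h ▸ (hF i1).1 hi1 k⟩
    refine ⟨{j | ∀ k, φ (X k) = 0 → I k j}, ?_⟩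
    ext i
    refine ⟨fun h j hj => hj i ((hz i).1 h), fun h => (hz i).2 ?_⟩
    by_contra hn
    obtain ⟨j, hj, hj'⟩ := hc φ (fun k => by
      rw [hφ']; exact mul_nonneg (hLp k).le (sub_nonneg.2 ((hF i1).1 hi1 k))) i hn
    exact hj (h j hj')
  let f : Fc (convexHull ℝ (S : Set _)) → Cl I := fun F => ⟨{i | x i ∈ F.1}, hcl F⟩
  have hf : ∀ a b, f a ≤ f b ↔ a ≤ b := fun a b =>
    ⟨fun h => hsub a b.1 (b.2.convex (convex_convexHull ℝ _)) (fun i hi => h hi),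
      fun h i hi => h hi⟩
  refine ⟨RelIso.ofSurjective (OrderEmbedding.ofMapLEIff f hf) ?_⟩
  rintro ⟨C, J, rfl⟩
  by_cases hne : ∃ i, ∀ j ∈ J, I i j
  swap
  · refine ⟨⟨∅, isExposed_empty⟩, Subtype.ext ?_⟩
    ext i
    exact ⟨fun h => h.elim, fun h => hne ⟨i, h⟩⟩
  obtain ⟨i1, hi1⟩ := hne
  set Z : W →ₗ[ℝ] ℝ := ∑ j ∈ Finset.univ.filter (· ∈ J), Y j with hZ
  have hZ0 : ∀ i, 0 ≤ Z (P i) := fun i => by
    have : 0 ≤ Z (X i) := by
      rw [hZ, LinearMap.sum_apply]; exact Finset.sum_nonneg (fun j _ => h0 i j)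
    rw [hPf Z] at this
    exact (mul_nonneg_iff_of_pos_left (hLp i)).1 this
  have hZ1 : ∀ i, Z (P i) = 0 ↔ ∀ j ∈ J, I i j := fun i => by
    have : Z (X i) = 0 ↔ ∀ j ∈ J, I i j := by
      rw [hZ, LinearMap.sum_apply, Finset.sum_eq_zero_iff_of_nonneg (fun j _ => h0 i j)]
      simp [hI]
    rw [← this, hPf Z, mul_eq_zero, or_iff_right (hLp i).ne']
  let l : EuclideanSpace ℝ (Fin (finrank ℝ V)) →L[ℝ] ℝ :=
    LinearMap.toContinuousLinearMap (-(Z ∘ₗ V.subtype ∘ₗ e.symm.toLinearMap))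
  have hl : ∀ i, l (x i) = Z (P i0) - Z (P i) := fun i => by simp [l, x]
  refine ⟨⟨_, ContinuousLinearMap.toExposed.isExposed (l := l)⟩, Subtype.ext ?_⟩
  ext i
  refine (hle l i).trans ?_
  simp only [hl]
  refine Iff.trans ?_ (hZ1 i)
  have := (hZ1 i1).2 hi1
  exact ⟨fun h => by linarith [h i1, hZ0 i], fun h k => by linarith [hZ0 k]⟩

end Pool.Agent.H.MP_866d96_co
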