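import Mathlib

set_option autoImplicit false
open Set Module

namespace Pool.Agent.H.MP_866d96_co

abbrev Ix (K : Type) := (K × (Fin 2 → Bool)) ⊕ (Fin 2 × Bool)

def sg (b : Bool) : ℝ := if b then 1 else -1

lemma sg_mul (a b : Bool) : 1 + sg a * sg b = if a = b then 2 else 0 := by
  cases a <;> cases b <;> norm_num [sg]

variable {K : Type} {W : Type} [AddCommGroup W] [Module ℝ W]

def XX (x : K → W) (a : Fin 2 → W) (b : Fin 2 → W →ₗ[ℝ] ℝ) :
    Ix K → W × (Fin 2 → ℝ) × (Fin 2 → ℝ)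
  | Sum.inl (k, e) => (x k, 0, fun t => sg (e t) * b t (x k))
  | Sum.inr (i, e) => (a i, Pi.single i (sg e), 0)

def YY (y : K → W →ₗ[ℝ] ℝ) (a : Fin 2 → W) (b : Fin 2 → W →ₗ[ℝ] ℝ) :
    Ix K → (W × (Fin 2 → ℝ) × (Fin 2 → ℝ)) →ₗ[ℝ] ℝ
  | Sum.inl (j, h) => y j ∘ₗ LinearMap.fst ℝ _ _ + ∑ i, (sg (h i) * y j (a i)) •
      (LinearMap.proj i ∘ₗ LinearMap.fst ℝ _ _ ∘ₗ LinearMap.snd ℝ _ _)
  | Sum.inr (t, h) => b t ∘ₗ LinearMap.fst ℝ _ _ + sg h •
      (LinearMap.proj t ∘ₗ LinearMap.snd ℝ _ _ ∘ₗ LinearMap.snd ℝ _ _)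

variable (x : K → W) (y : K → W →ₗ[ℝ] ℝ) (a : Fin 2 → W) (b : Fin 2 → W →ₗ[ℝ] ℝ)

lemma v11 (k j : K) (e h : Fin 2 → Bool) :
    YY y a b (.inl (j, h)) (XX x a b (.inl (k, e))) = y j (x k) := by simp [XX, YY]

lemma v12 (k : K) (e : Fin 2 → Bool) (t : Fin 2) (h : Bool) :
    YY y a b (.inr (t, h)) (XX x a b (.inl (k, e))) = b t (x k) * if h = e t then 2 else 0 := by
  rw [← sg_mul]; simp [XX, YY]; ring

lemma v21 (j : K) (h : Fin 2 → Bool) (i : Fin 2) (e : Bool) :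
    YY y a b (.inl (j, h)) (XX x a b (.inr (i, e))) = y j (a i) * if h i = e then 2 else 0 := by
  rw [← sg_mul]; fin_cases i <;> simp [XX, YY] <;> ring

lemma v22 (t i : Fin 2) (h e : Bool) :
    YY y a b (.inr (t, h)) (XX x a b (.inr (i, e))) = b t (a i) := by simp [XX, YY]

theorem marks (A : Fin 2 → List K) (ha : ∀ i, a i = ((A i).map x).sum)
    (hb : ∀ t k, 0 ≤ b t (x k)) (hab : ∀ t i, b t (a i) = 0) (hy : ∀ k j, 0 ≤ y j (x k))
    (hB : ∀ φ : W →ₗ[ℝ] ℝ, (∀ k, 0 ≤ φ (x k)) → ∀ k, φ (x k) ≠ 0 →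
      ∃ j, y j (x k) ≠ 0 ∧ ∀ k', φ (x k') = 0 → y j (x k') = 0)
    (Ψ : (W × (Fin 2 → ℝ) × (Fin 2 → ℝ)) →ₗ[ℝ] ℝ) (h0 : ∀ p, 0 ≤ Ψ (XX x a b p)) (p : Ix K)
    (hp : Ψ (XX x a b p) ≠ 0) : ∃ q, YY y a b q (XX x a b p) ≠ 0 ∧
      ∀ p', Ψ (XX x a b p') = 0 → YY y a b q (XX x a b p') = 0 := by
  classical
  set θ : Fin 2 → ℝ := fun t => Ψ (0, 0, Pi.single t 1) with hθ
  set s : Fin 2 → ℝ := fun t => Ψ (0, Pi.single t 1, 0) with hs
  set φ : W →ₗ[ℝ] ℝ := Ψ ∘ₗ LinearMap.inl ℝ _ _ - ∑ t, |θ t| • b t with hφ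
  have e1 : ∀ k e, Ψ (XX x a b (.inl (k, e))) =
      φ (x k) + ∑ t, (|θ t| + sg (e t) * θ t) * b t (x k) := fun k e => by
    have : XX x a b (.inl (k, e)) = (x k, 0, 0) + ∑ t, (sg (e t) * b t (x k)) •
        ((0, 0, Pi.single t 1) : W × (Fin 2 → ℝ) × (Fin 2 → ℝ)) := by
      ext t <;> [simp [XX]; simp [XX]; (fin_cases t <;> simp [XX])]
    rw [this, map_add, map_sum]
    simp only [map_smul, hφ, hθ]
    simp [Prod.mk_zero_zero]; ring
  have e2 : ∀ i e, Ψ (XX x a b (.inr (i, e))) = φ (a i) + sg e * s i := fun i e => by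
    have : XX x a b (.inr (i, e)) = (a i, 0, 0) + sg e •
        ((0, Pi.single i 1, 0) : W × (Fin 2 → ℝ) × (Fin 2 → ℝ)) := by
      ext t <;> [simp [XX]; (fin_cases t <;> fin_cases i <;> simp [XX]); simp [XX]]
    rw [this, map_add, map_smul]
    simp [hφ, hs, hab, Prod.mk_zero_zero]
  have hn : ∀ t e, 0 ≤ |θ t| + sg e * θ t := fun t e => by
    cases e <;> simp [sg] <;> [exact le_abs_self _; linarith [neg_abs_le (θ t)]]
  have hφ0 : ∀ k, 0 ≤ φ (x k) := fun k => by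
    have := h0 (.inl (k, fun t => decide (θ t < 0)))
    rw [e1, Finset.sum_eq_zero, add_zero] at this
    · exact this
    intro t _
    by_cases h : θ t < 0 <;> simp [h, sg, abs_of_neg, abs_of_nonneg, not_lt.1]
  have hsum : ∀ (f : W →ₗ[ℝ] ℝ), (∀ k, 0 ≤ f (x k)) → ∀ i, 0 ≤ f (a i) ∧
      (f (a i) = 0 ↔ ∀ k ∈ A i, f (x k) = 0) := fun f hf i => by
    rw [ha]
    induction A i with
    | nil => simp
    | cons k l ih =>
      simp only [List.map_cons, List.sum_cons, map_add, List.forall_mem_cons]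
      refine ⟨add_nonneg (hf k) ih.1, ?_⟩
      rw [add_eq_zero_iff_of_nonneg (hf k) ih.1, ih.2]
  have z1 : ∀ k e, Ψ (XX x a b (.inl (k, e))) = 0 ↔
      φ (x k) = 0 ∧ ∀ t, (|θ t| + sg (e t) * θ t) * b t (x k) = 0 := fun k e => by
    rw [e1, add_eq_zero_iff_of_nonneg (hφ0 k)
      (Finset.sum_nonneg fun t _ => mul_nonneg (hn _ _) (hb _ _)),
      Finset.sum_eq_zero_iff_of_nonneg fun t _ => mul_nonneg (hn _ _) (hb _ _)]
    simp
  have main : ∀ j, (∀ k', φ (x k') = 0 → y j (x k') = 0) → ∀ h : Fin 2 → Bool,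
      (∀ i, φ (a i) ≠ 0 → φ (a i) + sg (h i) * s i ≠ 0) →
      ∀ p', Ψ (XX x a b p') = 0 → YY y a b (.inl (j, h)) (XX x a b p') = 0 := by
    rintro j hj h hh (⟨k, e⟩ | ⟨i, e⟩) hp'
    · rw [v11]; exact hj k ((z1 k e).1 hp').1
    · rw [v21]
      by_cases h1 : φ (a i) = 0
      · rw [((hsum (y j) (fun k => hy k j) i).2).2
          (fun k hk => hj k ((hsum φ hφ0 i).2.1 h1 k hk)), zero_mul]
      · rw [if_neg, mul_zero]
        intro he
        exact hh i h1 (by rw [he, ← e2]; exact hp')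
  have hch : ∀ i, φ (a i) ≠ 0 → φ (a i) + sg (decide (0 ≤ s i)) * s i ≠ 0 := fun i hi => by
    have := lt_of_le_of_ne (hsum φ hφ0 i).1 (Ne.symm hi)
    by_cases h : 0 ≤ s i <;> simp only [h, sg, decide_true, decide_false] <;> simp <;> linarith
  rcases p with ⟨k, e⟩ | ⟨i, e⟩
  · by_cases h1 : φ (x k) = 0
    · obtain ⟨t, ht⟩ : ∃ t, (|θ t| + sg (e t) * θ t) * b t (x k) ≠ 0 := by
        by_contra hc
        push Not at hc
        exact hp ((z1 k e).2 ⟨h1, hc⟩)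
      refine ⟨.inr (t, e t), by rw [v12]; simpa using right_ne_zero_of_mul ht, ?_⟩
      rintro (⟨k', e'⟩ | ⟨i, e'⟩) hp'
      · rw [v12]
        split_ifs with he
        · have := ((z1 k' e').1 hp').2 t
          rw [← he] at this
          rw [(mul_eq_zero.1 this).resolve_left (left_ne_zero_of_mul ht), zero_mul]
        · simp
      · rw [v22, hab]
    · obtain ⟨j, hj, hj'⟩ := hB φ hφ0 k h1
      exact ⟨.inl (j, _), by rw [v11]; exact hj, main j hj' _ hch⟩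
  · have h1 : φ (a i) ≠ 0 := fun h => by
      have h2 := h0 (.inr (i, true))
      have h3 := h0 (.inr (i, false))
      rw [e2, h] at h2 h3 hp
      simp only [sg] at h2 h3
      apply hp
      have : s i = 0 := by simp at h2 h3; linarith
      simp [this]
    obtain ⟨k, hk, hk'⟩ : ∃ k ∈ A i, φ (x k) ≠ 0 := by
      by_contra hc
      push Not at hc
      exact h1 ((hsum φ hφ0 i).2.2 hc)
    obtain ⟨j, hj, hj'⟩ := hB φ hφ0 k hk'
    refine ⟨.inl (j, fun i' => if i' = i then e else decide (0 ≤ s i')), ?_, main j hj' _ ?_⟩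
    · rw [v21]
      simpa using fun h => hj ((hsum (y j) (fun k => hy k j) i).2.1 h k hk)
    · intro i' hi'
      by_cases h : i' = i
      · subst h; rw [if_pos rfl, ← e2]; exact hp
      · rw [if_neg h]; exact hch i' hi'

end Pool.Agent.H.MP_866d96_co
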