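import Pool.Agent.H.MP_866d96_co.T

set_option autoImplicit false
open Set Module

namespace Pool.Agent.H.MP_866d96_co

lemma red {n : ℕ} (c d : Fin n → ℝ) (h0 : ∀ w, 0 ≤ c w) (hd : ∀ w, c w = 0 → d w = 0)
    (hp : ∃ w, 0 < d w) : ∃ t : ℝ, 0 ≤ t ∧ (∀ w, 0 ≤ c w - t * d w) ∧
      (Finset.univ.filter (fun w => c w - t * d w ≠ 0)).card <
        (Finset.univ.filter (fun w => c w ≠ 0)).card ∧ ∀ w, c w = 0 → c w - t * d w = 0 := by
  classical
  obtain ⟨w1, h1⟩ := hp
  obtain ⟨w0, hw0, hm⟩ := Finset.exists_min_image (Finset.univ.filter (fun w => 0 < d w))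
    (fun w => c w / d w) ⟨w1, by simpa using h1⟩
  have hw : 0 < d w0 := by simpa using hw0
  have ht : 0 ≤ c w0 / d w0 := div_nonneg (h0 _) hw.le
  have hz : ∀ w, c w = 0 → c w - c w0 / d w0 * d w = 0 := fun w h => by simp [h, hd w h]
  refine ⟨c w0 / d w0, ht, fun w => ?_, ?_, hz⟩
  · by_cases h : 0 < d w
    · have := hm w (by simpa using h)
      rw [le_div_iff₀ h] at this
      linarith
    · nlinarith [h0 w, mul_nonneg ht (neg_nonneg.2 (not_lt.1 h))]
  · apply Finset.card_lt_card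
    refine ⟨fun w h => ?_, fun h => ?_⟩
    · simp only [Finset.mem_filter, Finset.mem_univ, true_and] at h ⊢
      exact fun h' => h (hz w h')
    · have := h (x := w0) (by simpa using fun h' => hw.ne' (hd w0 h'))
      simp [hw.ne'] at this

noncomputable def Gm : (Fin 15 → ℝ) →ₗ[ℝ] (Fin 3 → ℝ) :=
  Fintype.linearCombination ℝ (fun u k => (gg u k : ℝ))

lemma Gm_apply (c : Fin 15 → ℝ) (k : Fin 3) : Gm c k = ∑ u, c u * gg u k := by
  simp [Gm, Fintype.linearCombination_apply]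

lemma three (P : Fin 15 → Prop) (u : Fin 15) (hu : P u) (s : Finset (Fin 15)) (hs : ∀ w ∈ s, P w)
    (h : s.card ≤ 3) : ∃ a b c : Fin 15, a ≤ b ∧ b ≤ c ∧ (P a ∧ P b ∧ P c) ∧
      ∀ w ∈ s, w = a ∨ w = b ∨ w = c := by
  obtain ⟨a, b, c, hP, h'⟩ : ∃ a b c : Fin 15, (P a ∧ P b ∧ P c) ∧
      ∀ w ∈ s, w = a ∨ w = b ∨ w = c := by
    obtain h | h | h | h : s.card = 0 ∨ s.card = 1 ∨ s.card = 2 ∨ s.card = 3 := by omega
    · obtain rfl := Finset.card_eq_zero.1 h
      exact ⟨u, u, u, ⟨hu, hu, hu⟩, by simp⟩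
    · obtain ⟨a, rfl⟩ := Finset.card_eq_one.1 h
      exact ⟨a, a, a, by simpa using hs, by simp⟩
    · obtain ⟨a, b, -, rfl⟩ := Finset.card_eq_two.1 h
      exact ⟨a, b, b, by simpa using hs, by simp⟩
    · obtain ⟨a, b, c, -, -, -, rfl⟩ := Finset.card_eq_three.1 h
      exact ⟨a, b, c, by simpa using hs, by simp⟩
  rcases le_total a b with h1 | h1 <;> rcases le_total b c with h2 | h2 <;>
    rcases le_total a c with h3 | h3
  all_goals first
    | exact ⟨a, b, c, by assumption, by assumption, hP, h'⟩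
    | exact ⟨a, c, b, by assumption, by assumption, by tauto, fun w hw => by have := h' w hw; tauto⟩
    | exact ⟨b, a, c, by assumption, by assumption, by tauto, fun w hw => by have := h' w hw; tauto⟩
    | exact ⟨b, c, a, by assumption, by assumption, by tauto, fun w hw => by have := h' w hw; tauto⟩
    | exact ⟨c, a, b, by assumption, by assumption, by tauto, fun w hw => by have := h' w hw; tauto⟩
    | exact ⟨c, b, a, by assumption, by assumption, by tauto, fun w hw => by have := h' w hw; tauto⟩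

lemma msk_bit (u a b c w : Fin 15) :
    (msk u a b c).testBit w ↔ w = u ∨ w = a ∨ w = b ∨ w = c := by
  simp only [msk, Nat.testBit_or, Nat.testBit_two_pow, Fin.ext_iff, Bool.or_eq_true,
    decide_eq_true_eq]
  omega

lemma small (c : Fin 15 → ℝ) (hc : Gm c = 0) (h0 : ∀ w, 0 ≤ c w) (u : Fin 15) (hu : c u ≠ 0)
    (hs : ((Finset.univ.filter (fun w => c w ≠ 0)).erase u).card ≤ 3) :
    ∃ H : Fin 113, cc H u ≠ 0 ∧ ∀ w : Fin 15, c w = 0 → cc H w = 0 := by
  classical
  obtain ⟨a, b, d, hab, hbd, hP, h⟩ := three (fun w => c w ≠ 0) u hu _ (by simp) hs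
  have hm : ∀ w, c w ≠ 0 → (msk u a b d).testBit w := fun w hw => by
    rw [msk_bit]
    by_cases h1 : w = u
    · exact Or.inl h1
    · exact Or.inr (h w (by simp [h1, hw]))
  have h4 := c4 u u.2 d d.2 b hbd a hab
  simp only [Bool.or_eq_true, List.any_eq_true, beq_iff_eq] at h4
  rcases h4 with ⟨p, hp, h4⟩ | ⟨p, hp, h4⟩
  · exfalso
    obtain ⟨h5, h6⟩ := c3 u p hp
    have h7 : ∑ w, c w * (dt p.2 w : ℝ) = 0 := by
      have := congrFun hc
      simp only [Gm_apply, Pi.zero_apply] at this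
      simp only [dt, Int.cast_add, Int.cast_mul, mul_add, Finset.sum_add_distrib, mul_left_comm (c _),
        ← Finset.mul_sum, this]
      simp
    have h8 : ∀ w, 0 ≤ c w * (dt p.2 w : ℝ) := fun w => by
      by_cases hw : c w = 0
      · simp [hw]
      · have h9 := hm w hw
        rw [← h4, Nat.testBit_and, Bool.and_eq_true] at h9
        exact mul_nonneg (h0 w) (by exact_mod_cast h6 w h9.2)
    have := (Finset.sum_eq_zero_iff_of_nonneg (fun w _ => h8 w)).1 h7 u (Finset.mem_univ u)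
    rcases mul_eq_zero.1 this with h | h
    · exact hu h
    · exact h5.ne' (by exact_mod_cast h)
  · obtain ⟨h5, h6, h7⟩ := c2 u p hp
    refine ⟨⟨p.2, h5⟩, h6, fun w hw => ?_⟩
    by_contra h8
    have h9 := h7 w h8
    rw [← h4, Nat.testBit_and, Bool.and_eq_true, msk_bit] at h9
    rcases h9.2 with rfl | rfl | rfl | rfl <;> tauto

lemma circ (c : Fin 15 → ℝ) (hc : Gm c = 0) (h0 : ∀ w, 0 ≤ c w) (u : Fin 15) (hu : c u ≠ 0) :
    ∃ H : Fin 113, cc H u ≠ 0 ∧ ∀ w : Fin 15, c w = 0 → cc H w = 0 := by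
  classical
  induction hn : (Finset.univ.filter (fun w => c w ≠ 0)).card using Nat.strong_induction_on
    generalizing c with
  | _ n ih =>
  set s := (Finset.univ.filter (fun w => c w ≠ 0)).erase u with hs
  by_cases h3 : s.card ≤ 3
  · exact small c hc h0 u hu h3
  have hli : ¬ LinearIndependent ℝ (fun w : s => fun k => (gg w k : ℝ)) := fun h => by
    have := h.fintype_card_le_finrank
    simp at this; omega
  obtain ⟨d, hd, w0, hw0⟩ := Fintype.not_linearIndependent_iff.1 hli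
  have key : ∀ d : s → ℝ, ∑ i, d i • (fun k => (gg i k : ℝ)) = 0 → (∃ i, 0 < d i) →
      ∃ H : Fin 113, cc H u ≠ 0 ∧ ∀ w : Fin 15, c w = 0 → cc H w = 0 := by
    rintro d hd ⟨i, hi⟩
    let d' : Fin 15 → ℝ := fun w => if h : w ∈ s then d ⟨w, h⟩ else 0
    have hd' : Gm d' = 0 := by
      rw [← hd, Gm, Fintype.linearCombination_apply, ← Finset.sum_subset (Finset.subset_univ s)
        (fun w _ hw => by simp [d', hw]), ← Finset.sum_coe_sort s]
      simp [d']
    obtain ⟨t, -, h1, h2, h4⟩ := red c d' h0 (fun w hw => by simp [d', hs, hw])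
      ⟨i, by simpa [d'] using hi⟩
    obtain ⟨H, h5, h6⟩ := ih _ (hn ▸ h2) (fun w => c w - t * d' w) (by
      have : (fun w => c w - t * d' w) = c - t • d' := rfl
      rw [this, map_sub, map_smul, hc, hd']; simp) h1 (by simpa [d', hs] using hu) rfl
    exact ⟨H, h5, fun w hw => h6 w (h4 w hw)⟩
  rcases lt_or_gt_of_ne hw0 with h | h
  · exact key (-d) (by simpa using hd) ⟨w0, by simpa using h⟩
  · exact key d hd ⟨w0, h⟩

noncomputable abbrev LL := LinearMap.ker Gm

noncomputable def cy (H : Fin 113) : LL := ⟨fun u => cc H u, by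
  rw [LinearMap.mem_ker]
  ext k
  rw [Gm_apply, Pi.zero_apply]
  exact_mod_cast c1 H k⟩

lemma cone (ψ : LL →ₗ[ℝ] ℝ) (h : ∀ H, 0 ≤ ψ (cy H)) (c : LL) (h0 : ∀ w, 0 ≤ c.1 w) : 0 ≤ ψ c := by
  classical
  induction hn : (Finset.univ.filter (fun w => c.1 w ≠ 0)).card using Nat.strong_induction_on
    generalizing c with
  | _ n ih =>
  by_cases hc : ∃ u, c.1 u ≠ 0
  swap
  · push Not at hc
    rw [show c = 0 from Subtype.ext (funext hc), map_zero]
  obtain ⟨u, hu⟩ := hc
  obtain ⟨H, h1, h2⟩ := circ c.1 c.2 h0 u hu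
  obtain ⟨t, ht, h3, h4, -⟩ := red c.1 (cy H).1 h0 (fun w hw => by simp [cy, h2 w hw])
    ⟨u, by simpa [cy] using Nat.pos_of_ne_zero h1⟩
  have := ih _ (hn ▸ h4) (c - t • cy H) h3 rfl
  rw [map_sub, map_smul, smul_eq_mul] at this
  linarith [mul_nonneg ht (h H)]

lemma dualB (ψ : LL →ₗ[ℝ] ℝ) (h : ∀ H, 0 ≤ ψ (cy H)) (H0 : Fin 113) (h0 : ψ (cy H0) ≠ 0) :
    ∃ u : Fin 15, cc H0 u ≠ 0 ∧ ∀ H, ψ (cy H) = 0 → cc H u = 0 := by
  classical
  by_contra hc
  push Not at hc
  set S : LL := ∑ H ∈ Finset.univ.filter (fun H => ψ (cy H) = 0), cy H with hS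
  have h1 : ψ S = 0 := by
    rw [hS, map_sum]; exact Finset.sum_eq_zero (fun H hH => by simpa using hH)
  have h2 : ∀ w, S.1 w = ∑ H ∈ Finset.univ.filter (fun H => ψ (cy H) = 0), (cc H w : ℝ) :=
    fun w => by simp [hS, cy]
  have := cone ψ h ((256 : ℝ) • S - cy H0) (fun w => by
    show 0 ≤ 256 * S.1 w - (cc H0 w : ℝ)
    rw [h2]
    by_cases hw : cc H0 w = 0
    · rw [hw]; simp; positivity
    · obtain ⟨H, h3, h4⟩ := hc w hw
      have h5 : (cc H w : ℝ) ≤ _ := Finset.single_le_sum (f := fun H : Fin 113 => (cc H w : ℝ))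
        (s := Finset.univ.filter (fun H => ψ (cy H) = 0)) (fun _ _ => by positivity) (by simpa using h3)
      have h6 : (1 : ℝ) ≤ cc H w := by exact_mod_cast Nat.pos_of_ne_zero h4
      have h7 : (cc H0 w : ℝ) < 256 := by exact_mod_cast Nat.mod_lt _ (by norm_num)
      linarith)
  rw [map_sub, map_smul, h1] at this
  exact h0 (le_antisymm (by simpa using this) (h H0))

lemma fin_LL : finrank ℝ LL = 12 := by
  have h := LinearMap.finrank_range_add_finrank_ker Gm
  have h2 : LinearMap.range Gm = ⊤ := by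
    rw [LinearMap.range_eq_top]
    intro y
    refine ⟨Pi.single 0 ((y 0 + y 1) / 2) + Pi.single 2 ((y 2 - y 0) / 2) +
      Pi.single 4 ((y 2 - y 1) / 2), ?_⟩
    ext k
    simp only [map_add, Gm, Fintype.linearCombination_apply_single]
    fin_cases k <;> simp [gg] <;> ring
  rw [h2] at h
  simp at h
  show finrank ℝ (LinearMap.ker Gm) = 12
  omega

end Pool.Agent.H.MP_866d96_co
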