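import Pool.Agent.H.MP_866d96_co.C
import Pool.Agent.H.MP_866d96_co.D

set_option autoImplicit false
open Set Module

namespace Pool.Agent.H.MP_866d96_co

abbrev KK := Fin 15 ⊕ Fin 113 ⊕ (Fin 4 × Fin 4)

noncomputable abbrev W0 := Dual ℝ LL × LL × (Fin 4 → Fin 3 → ℝ)

def sv : Fin 4 → Fin 3 → ℝ := ![![1, 0, 0], ![0, 1, 0], ![0, 0, 1], ![1, -1, 1]]

def se : Fin 4 → Fin 3 → ℝ := ![![0, 0, 1], ![1, 0, 0], ![1, 1, 0], ![0, 1, 1]]

def sq (i j : Fin 4) : ℕ := if i = j ∨ i = j + 1 then 0 else 1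

noncomputable def xx : KK → W0
  | .inl u => (LinearMap.proj u ∘ₗ LL.subtype, 0, 0)
  | .inr (.inl H) => (0, cy H, 0)
  | .inr (.inr (t, i)) => (0, 0, Pi.single t (sv i))

noncomputable def yy : KK → W0 →ₗ[ℝ] ℝ
  | .inl u => LinearMap.proj u ∘ₗ LL.subtype ∘ₗ LinearMap.fst ℝ _ _ ∘ₗ LinearMap.snd ℝ _ _
  | .inr (.inl H) => Dual.eval ℝ LL (cy H) ∘ₗ LinearMap.fst ℝ _ _
  | .inr (.inr (t, j)) => (∑ k, se j k • LinearMap.proj k) ∘ₗ LinearMap.proj t ∘ₗ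
      LinearMap.snd ℝ _ _ ∘ₗ LinearMap.snd ℝ _ _

def val : KK → KK → ℕ
  | .inl u, .inr (.inl H) => cc H u
  | .inr (.inl H), .inl u => cc H u
  | .inr (.inr (t, i)), .inr (.inr (s, j)) => if t = s then sq i j else 0
  | _, _ => 0

lemma hval (k j : KK) : yy j (xx k) = val k j := by
  rcases k with u | H | ⟨t, i⟩ <;> rcases j with v | G | ⟨s, j⟩ <;> simp [xx, yy, val, cy]
  by_cases h : t = s
  · subst h
    fin_cases i <;> fin_cases j <;> simp [sv, se, sq, Fin.sum_univ_three]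
  · simp [h]

lemma baseB (φ : W0 →ₗ[ℝ] ℝ) (h : ∀ k, 0 ≤ φ (xx k)) (k : KK) (hk : φ (xx k) ≠ 0) :
    ∃ j, yy j (xx k) ≠ 0 ∧ ∀ k', φ (xx k') = 0 → yy j (xx k') = 0 := by
  simp only [hval, Nat.cast_eq_zero, ne_eq]
  rcases k with u | H | ⟨t, i⟩
  · obtain ⟨c, hc⟩ := (Module.bijective_dual_eval ℝ LL).2 (φ ∘ₗ LinearMap.inl ℝ _ _)
    have h1 : ∀ w, φ (xx (.inl w)) = c.1 w := fun w =>
      (LinearMap.congr_fun hc (xx (.inl w)).1).symm
    obtain ⟨H, h2, h3⟩ := circ c.1 c.2 (fun w => h1 w ▸ h _) u (h1 u ▸ hk)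
    refine ⟨.inr (.inl H), h2, ?_⟩
    rintro (w | G | ⟨s, j⟩) hw
    · exact h3 w (h1 w ▸ hw)
    · rfl
    · rfl
  · obtain ⟨u, h2, h3⟩ := dualB (φ ∘ₗ LinearMap.inr ℝ _ _ ∘ₗ LinearMap.inl ℝ _ _)
      (fun H => h (.inr (.inl H))) H hk
    refine ⟨.inl u, h2, ?_⟩
    rintro (w | G | ⟨s, j⟩) hw
    · rfl
    · exact h3 G hw
    · rfl
  · set f : Fin 4 → ℝ := fun i => φ (xx (.inr (.inr (t, i)))) with hf
    have h0 : ∀ i, 0 ≤ f i := fun i => h _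
    have h1 : f 0 + f 2 = f 1 + f 3 := by
      simp only [hf, ← map_add, xx, Prod.mk_add_mk, ← Pi.single_add]
      congr 4
      ext k; fin_cases k <;> simp [sv]
    have hi : f i ≠ 0 := hk
    obtain ⟨j, h2, h3⟩ : ∃ j, sq i j ≠ 0 ∧ ∀ i', f i' = 0 → sq i' j = 0 := by
      have d1 : ∀ a i' : Fin 4, sq i' (a + 2) ≠ 0 ↔ i' = a ∨ i' = a + 1 := by decide
      have d2 : ∀ a : Fin 4, a + 3 + 1 = a := by decide
      have key : ∀ a, f a ≠ 0 → f (a + 1) ≠ 0 → ∀ i', f i' = 0 → sq i' (a + 2) = 0 := by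
        intro a ha hb i' hi'
        by_contra hc
        rcases (d1 a i').1 hc with rfl | rfl
        · exact ha hi'
        · exact hb hi'
      by_cases h2 : f (i + 1) = 0
      · refine ⟨i + 3 + 2, (d1 _ _).2 (Or.inr (d2 i).symm), key _ (fun h3 => hi ?_) (by rwa [d2])⟩
        have h4 := h0 0; have h5 := h0 1; have h6 := h0 2; have h7 := h0 3
        fin_cases i <;> simp at h2 h3 ⊢ <;> linarith
      · exact ⟨i + 2, (d1 _ _).2 (Or.inl rfl), key _ hi h2⟩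
    refine ⟨.inr (.inr (t, j)), by simpa [val] using h2, ?_⟩
    rintro (w | G | ⟨s, i'⟩) hw
    · rfl
    · rfl
    · by_cases hs : s = t
      · subst hs; simpa [val] using h3 i' hw
      · simp [val, hs]

def AA : Fin 2 → List KK :=
  ![[.inl 4, .inr (.inr (0, 0)), .inr (.inr (3, 0)), .inr (.inr (3, 1))],
    [.inl 5, .inr (.inr (2, 0)), .inr (.inr (1, 0)), .inr (.inr (1, 1))]]

def BB : Fin 2 → List KK :=
  ![[.inl 4, .inr (.inr (0, 3)), .inr (.inr (0, 0)), .inr (.inr (1, 0))],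
    [.inl 5, .inr (.inr (2, 3)), .inr (.inr (2, 0)), .inr (.inr (3, 0))]]

noncomputable def aa (i : Fin 2) : W0 := ((AA i).map xx).sum

noncomputable def bb (t : Fin 2) : W0 →ₗ[ℝ] ℝ := ((BB t).map yy).sum

def bx (t : Fin 2) (k : KK) : ℕ := ((BB t).map (val k)).sum

def ya (j : KK) (i : Fin 2) : ℕ := ((AA i).map (fun k => val k j)).sum

lemma hbx (t : Fin 2) (k : KK) : bb t (xx k) = bx t k := by
  fin_cases t <;> simp [bb, bx, BB, hval]

lemma hya (j : KK) (i : Fin 2) : yy j (aa i) = ya j i := by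
  fin_cases i <;> simp [aa, ya, AA, hval]

lemma hab (t i : Fin 2) : bb t (aa i) = 0 := by
  have : ∀ t i, ∀ k ∈ AA i, bx t k = 0 := by decide +kernel
  rw [aa, map_list_sum, List.sum_eq_zero]
  simp only [List.mem_map]
  rintro _ ⟨_, ⟨k, hk, rfl⟩, rfl⟩
  rw [hbx, this t i k hk, Nat.cast_zero]

def VAL : Ix KK → Ix KK → ℕ
  | .inl (k, _), .inl (j, _) => val k j
  | .inl (k, e), .inr (t, h) => bx t k * if h = e t then 2 else 0
  | .inr (i, e), .inl (j, h) => ya j i * if h i = e then 2 else 0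
  | .inr _, .inr _ => 0

lemma hVAL (p q : Ix KK) : YY yy aa bb q (XX xx aa bb p) = VAL p q := by
  rcases p with ⟨k, e⟩ | ⟨i, e⟩ <;> rcases q with ⟨j, h⟩ | ⟨t, h⟩
  · rw [v11, hval, VAL]
  · rw [v12, hbx, VAL]; simp
  · rw [v21, hya, VAL]; simp
  · rw [v22, hab, VAL]; simp

lemma fin_W : finrank ℝ (W0 × (Fin 2 → ℝ) × (Fin 2 → ℝ)) = 40 := by
  simp [Module.finrank_prod, fin_LL, Module.finrank_pi_fintype]

end Pool.Agent.H.MP_866d96_co
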