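import Pool.Agent.H.MP_866d96_co.F
import Pool.Agent.H.MP_866d96_co.B

set_option autoImplicit false

namespace Pool.Agent.H.MP_866d96_co

def Lk (a : ℕ) : Prop :=
  ∀ i < 51, ∀ j < 204, (VAL (tag TV (a + i)) (tag TF j) != 0) = nz (a + i) j

instance (a : ℕ) : Decidable (Lk a) := by unfold Lk; infer_instance

lemma lk0 : Lk 0 := by decide +kernel

lemma lk1 : Lk 51 := by decide +kernel

lemma lk2 : Lk 102 := by decide +kernel

lemma lk3 : Lk 153 := by decide +kernel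

lemma link (i j : Fin 204) : VAL (tag TV i) (tag TF j) = 0 ↔ nz i j = false := by
  have hh : ∀ a, Lk a → a ≤ i → i < a + 51 → (VAL (tag TV i) (tag TF j) != 0) = nz i j :=
    fun a h h1 h2 => by
      have := h (i - a) (by omega) j j.2
      rwa [Nat.add_sub_cancel' h1] at this
  have h : (VAL (tag TV i) (tag TF j) != 0) = nz i j := by
    have := i.2
    by_cases h1 : i.1 < 51
    · exact hh 0 lk0 (by omega) (by omega)
    by_cases h2 : i.1 < 102
    · exact hh 51 lk1 (by omega) (by omega)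
    by_cases h3 : i.1 < 153
    · exact hh 102 lk2 (by omega) (by omega)
    · exact hh 153 lk3 (by omega) (by omega)
  rw [← h]; simp

def code : KK → ℕ
  | .inl u => u
  | .inr (.inl H) => 15 + H
  | .inr (.inr (t, i)) => 128 + 4 * t + i

def enc (T : ℕ) (k : KK) (a b : Bool) : ℕ := lk T 8 (4 * code k + 2 * a.toNat + b.toNat)

def same (f : Fin 2 → KK → ℕ) (k : KK) (a b : Bool) : Ix KK → Bool
  | .inl (k', e) => decide (k' = k) && (e 0 == a || f 0 k == 0) && (e 1 == b || f 1 k == 0)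
  | .inr _ => false

def En (T U : ℕ) (f : Fin 2 → KK → ℕ) (k : KK) : Prop :=
  ∀ a b : Bool, enc T k a b < 204 ∧ same f k a b (tag U (enc T k a b)) = true

instance (T U : ℕ) (f : Fin 2 → KK → ℕ) (k : KK) : Decidable (En T U f k) := by
  unfold En; infer_instance

lemma enV : (∀ u, En EV TV bx (.inl u)) ∧ (∀ H, En EV TV bx (.inr (.inl H))) ∧
    ∀ t i, En EV TV bx (.inr (.inr (t, i))) := by decide +kernel

lemma enF : (∀ u, En EF TF (fun t k => ya k t) (.inl u)) ∧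
    (∀ H, En EF TF (fun t k => ya k t) (.inr (.inl H))) ∧
    ∀ t i, En EF TF (fun t k => ya k t) (.inr (.inr (t, i))) := by decide +kernel

lemma en_use {T U : ℕ} {f : Fin 2 → KK → ℕ} (h : (∀ u, En T U f (.inl u)) ∧
    (∀ H, En T U f (.inr (.inl H))) ∧ ∀ t i, En T U f (.inr (.inr (t, i)))) (k : KK)
    (e : Fin 2 → Bool) : ∃ (i : Fin 204) (e' : Fin 2 → Bool), tag U i = .inl (k, e') ∧
      ∀ t, e' t = e t ∨ f t k = 0 := by
  have h1 : En T U f k := by
    rcases k with u | H | ⟨t, i⟩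
    exacts [h.1 u, h.2.1 H, h.2.2 t i]
  obtain ⟨h2, h3⟩ := h1 (e 0) (e 1)
  refine ⟨⟨_, h2⟩, ?_⟩
  generalize tag U _ = p at h3 ⊢
  rcases p with ⟨k', e'⟩ | _
  · simp only [same, Bool.and_eq_true, decide_eq_true_eq, Bool.or_eq_true, beq_iff_eq] at h3
    exact ⟨e', by rw [h3.1.1], Fin.forall_fin_two.2 ⟨h3.1.2, h3.2⟩⟩
  · simp [same] at h3

lemma tag_m (U : ℕ) (i : Fin 2) (e : Bool) : ∃ j : Fin 204, tag U j = .inr (i, e) := by
  refine ⟨⟨200 + 2 * i + e.toNat, by have := i.2; cases e <;> simp <;> omega⟩, ?_⟩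
  fin_cases i <;> cases e <;> rfl

lemma surV (p : Ix KK) : ∃ i : Fin 204, XX xx aa bb (tag TV i) = XX xx aa bb p := by
  rcases p with ⟨k, e⟩ | ⟨i, e⟩
  · obtain ⟨i, e', h1, h2⟩ := en_use enV k e
    refine ⟨i, ?_⟩
    rw [h1]
    simp only [XX, hbx]
    congr 2
    funext t
    rcases h2 t with h | h <;> simp [h]
  · obtain ⟨j, hj⟩ := tag_m TV i e
    exact ⟨j, by rw [hj]⟩

lemma surF (p : Ix KK) : ∃ i : Fin 204, YY yy aa bb (tag TF i) = YY yy aa bb p := by
  rcases p with ⟨k, e⟩ | ⟨i, e⟩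
  · obtain ⟨i, e', h1, h2⟩ := en_use enF k e
    refine ⟨i, ?_⟩
    rw [h1]
    simp only [YY, hya]
    congr 1
    refine Finset.sum_congr rfl (fun t _ => ?_)
    rcases h2 t with h | h <;> simp [h]
  · obtain ⟨j, hj⟩ := tag_m TF i e
    exact ⟨j, by rw [hj]⟩

def II (i j : Fin 204) : Prop := nz i j = false

theorem geo (hrow : ∀ i, ∃ j, ¬ II i j) : ∃ d, d + 1 ≤ 40 ∧ ∃ S : Finset (EuclideanSpace ℝ (Fin d)),
      (interior (convexHull ℝ (S : Set (EuclideanSpace ℝ (Fin d))))).Nonempty ∧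
      Nonempty (Fc (convexHull ℝ (S : Set (EuclideanSpace ℝ (Fin d)))) ≃o Cl II) := by
  rw [← fin_W]
  have hI : ∀ i j : Fin 204, II i j ↔ YY yy aa bb (tag TF j) (XX xx aa bb (tag TV i)) = 0 :=
    fun i j => by rw [hVAL, Nat.cast_eq_zero, link, II]
  refine build (fun i : Fin 204 => XX xx aa bb (tag TV i)) (fun j => YY yy aa bb (tag TF j)) II
    (fun i j => by rw [hVAL]; positivity) hI hrow (fun φ h0 i hi => ?_)
  obtain ⟨q, h1, h2⟩ := marks xx yy aa bb AA (fun _ => rfl) (fun t k => by rw [hbx]; positivity)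
    hab (fun k j => by rw [hval]; positivity) baseB φ (fun p => by
      obtain ⟨i, hi⟩ := surV p
      rw [← hi]; exact h0 i) _ hi
  obtain ⟨j, hj⟩ := surF q
  refine ⟨j, by rw [hI, hj]; exact h1, fun k hk => ?_⟩
  rw [hI, hj]; exact h2 _ hk

end Pool.Agent.H.MP_866d96_co
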