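import Pool.Agent.H.MP_866d96_co.F

set_option autoImplicit false

namespace Pool.Agent.H.MP_866d96_co

def mask (l : List ℕ) : ℕ := l.foldr (fun j a => 2 ^ j ||| a) 0

lemma mask_bit (l : List ℕ) (k : ℕ) : (mask l).testBit k ↔ k ∈ l := by
  induction l with
  | nil => simp [mask]
  | cons a l ih =>
    rw [mask, List.foldr_cons, Nat.testBit_or, Bool.or_eq_true, ← mask, ih, Nat.testBit_two_pow]
    simp [eq_comm]

def adj (i : ℕ) : List ℕ := ADJ.getD i []

lemma hadj : ∀ i < 204, row i = mask (adj i) ∧ (adj i).Nodup ∧ adj i ≠ [] ∧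
    (∀ j ∈ adj i, j < 204) ∧ rho i < 204 ∧ rho (rho i) = i := by decide +kernel

lemma hsub : ∀ i < 204, ∀ k < 204, row k &&& row i = row k → k = i := by decide +kernel

lemma hdual : ∀ i < 204, ∀ k < 204, nz i k = nz k (rho i) := by decide +kernel

lemma nz_adj (i : Fin 204) (j : ℕ) : nz i j ↔ j ∈ adj i := by
  rw [nz, (hadj i i.2).1, mask_bit]

def rr (i : Fin 204) : Fin 204 := ⟨rho i, (hadj i i.2).2.2.2.2.1⟩

lemma rr_rr (i : Fin 204) : rr (rr i) = i := Fin.ext (hadj i i.2).2.2.2.2.2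

lemma sum_adj (i : Fin 204) (h : ℕ → ℕ) :
    ((adj i).map h).sum = ∑ j : Fin 204, if nz i j then h j else 0 := by
  rw [Fin.sum_univ_eq_sum_range (fun j => if nz i j then h j else 0), ← Finset.sum_filter,
    ← List.sum_toFinset _ (hadj i i.2).2.1]
  congr 1
  ext j
  simp only [List.mem_toFinset, Finset.mem_filter, Finset.mem_range, nz_adj]
  exact ⟨fun h => ⟨(hadj i i.2).2.2.2.1 j h, h⟩, fun h => h.2⟩

lemma sum_adj' (j : Fin 204) (h : ℕ → ℕ) :
    ((adj j).map (fun i => h (rho i))).sum = ∑ i : Fin 204, if nz i j then h i else 0 := by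
  rw [sum_adj, ← Equiv.sum_comp (Function.Involutive.toPerm rr rr_rr)]
  refine Finset.sum_congr rfl (fun i _ => ?_)
  show (if nz j (rho i) then h (rho (rho i)) else 0) = _
  rw [← hdual i i.2 j j.2, (hadj i i.2).2.2.2.2.2]

def hsh (x s : ℕ) : ℕ := (x * x * 7 + s * s * 3 + s * 5 + x + 11) % 65521

def l16 (T i : ℕ) : ℕ := T / 65536 ^ i % 65536

def pack (f : ℕ → List ℕ → ℕ) : ℕ → List (List ℕ) → ℕ
  | _, [] => 0
  | i, l :: ls => f i l % 65536 + 65536 * pack f (i + 1) ls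

lemma l16_pack (f : ℕ → List ℕ → ℕ) (ls : List (List ℕ)) (i k : ℕ) (hk : k < ls.length) :
    l16 (pack f i ls) k = f (i + k) (ls.getD k []) % 65536 := by
  induction ls generalizing i k with
  | nil => simp at hk
  | cons l ls ih =>
    cases k with
    | zero => simp [l16, pack]
    | succ k =>
      have := ih (i + 1) k (by simpa using hk)
      rw [l16] at this
      rw [l16, pack, pow_succ', ← Nat.div_div_eq_div_mul, Nat.add_mul_div_left _ _ (by norm_num),
        Nat.div_eq_of_lt (Nat.mod_lt _ (by norm_num)), zero_add, this]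
      simp [add_assoc, add_comm 1 k]

def nA (a b : ℕ) : ℕ := pack (fun i l => hsh (l16 a i) (l.map (l16 b)).sum) 0 ADJ

def nB (a b : ℕ) : ℕ := pack (fun j l => hsh (l16 b j) (l.map (fun i => l16 a (rho i))).sum) 0 ADJ

lemma len : ADJ.length = 204 := by decide +kernel

lemma nA_eq (a b : ℕ) (i : Fin 204) : l16 (nA a b) i =
    hsh (l16 a i) (∑ j : Fin 204, if nz i j then l16 b j else 0) % 65536 := by
  rw [nA, l16_pack _ _ _ _ (by rw [len]; exact i.2), zero_add, ← sum_adj, adj]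

lemma nB_eq (a b : ℕ) (j : Fin 204) : l16 (nB a b) j =
    hsh (l16 b j) (∑ i : Fin 204, if nz i j then l16 a i else 0) % 65536 := by
  rw [nB, l16_pack _ _ _ _ (by rw [len]; exact j.2), zero_add, ← sum_adj', adj]

def force {α : Type} (x : ℕ) (f : ℕ → α) : α :=
  match x with
  | 0 => f 0
  | n + 1 => f (n + 1)

lemma force_eq {α : Type} (x : ℕ) (f : ℕ → α) : force x f = f x := by cases x <;> rfl

def iter : ℕ → ℕ → ℕ → (ℕ → ℕ → Bool) → Bool
  | 0, a, b, k => k a b
  | t + 1, a, b, k => force (nA a b) fun a' => force (nB a b) fun b' => iter t a' b' k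

def Rel (σ ρ : Fin 204 ≃ Fin 204) (a b a' b' : ℕ) : Prop :=
  (∀ k : Fin 204, l16 a k = l16 b' (σ k)) ∧ ∀ i : Fin 204, l16 b (ρ i) = l16 a' i

lemma step {σ ρ : Fin 204 ≃ Fin 204} (h : ∀ i k : Fin 204, nz i (σ k) = nz k (ρ i))
    {a b a' b' : ℕ} (r : Rel σ ρ a b a' b') :
    Rel σ ρ (nA a b) (nB a b) (nA a' b') (nB a' b') := by
  refine ⟨fun k => ?_, fun i => ?_⟩
  · rw [nA_eq, nB_eq, r.1, ← ρ.sum_comp]
    simp only [h, r.2]
  · rw [nA_eq, nB_eq, r.2, ← σ.sum_comp (fun j => if nz i j then l16 b' j else 0)]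
    simp only [h, r.1]

lemma iter2 {σ ρ : Fin 204 ≃ Fin 204} (h : ∀ i k : Fin 204, nz i (σ k) = nz k (ρ i)) (t : ℕ)
    {a b a' b' : ℕ} (r : Rel σ ρ a b a' b') : ∃ c d c' d', Rel σ ρ c d c' d' ∧
      (∀ k, iter t a b k = k c d) ∧ ∀ k, iter t a' b' k = k c' d' := by
  induction t generalizing a b a' b' with
  | zero => exact ⟨a, b, a', b', r, fun _ => rfl, fun _ => rfl⟩
  | succ t ih =>
    obtain ⟨c, d, c', d', h1, h2, h3⟩ := ih (step h r)
    exact ⟨c, d, c', d', h1, fun k => by rw [iter, force_eq, force_eq, h2],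
      fun k => by rw [iter, force_eq, force_eq, h3]⟩

def fin (c d c' d' : ℕ) : Bool :=
  (List.range 15).all fun i => (List.range 204).all fun j => l16 d j != l16 c' i ||
    (List.range 204).all fun k => l16 c k != l16 d' j || k == rho i

lemma r0 : iter 2 0 0 (fun c d => (List.range 204).all fun j =>
    l16 c 1 != l16 d j || j == 1 || j == 3) = true := by
  decide +kernel

lemma r1 : iter 8 (65536 ^ 1) 0 (fun c d => iter 8 0 (65536 ^ 1) (fin c d) &&
    iter 8 0 (65536 ^ 3) (fin c d)) = true := by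
  decide +kernel

lemma l16_pow : ∀ m < 4, ∀ i < 204, l16 (65536 ^ m) i = if i = m then 1 else 0 := by decide +kernel

theorem sq_tau {σ ρ : Fin 204 ≃ Fin 204} (h : ∀ i k : Fin 204, nz i (σ k) = nz k (ρ i))
    (i : Fin 204) (hi : i.1 < 15) : σ.symm (ρ i) = rr i := by
  have z : ∀ i, l16 0 i = 0 := fun i => by simp [l16]
  obtain ⟨c, d, c', d', h1, h2, h3⟩ := iter2 h 2 (a := 0) (b := 0) (a' := 0) (b' := 0)
    ⟨fun _ => by simp [z], fun _ => by simp [z]⟩
  have h4 := r0
  have e : c = c' ∧ d = d' := by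
    have := (h2 (fun x y => decide (x = c' ∧ y = d'))).symm.trans (h3 _)
    simpa using this
  rw [h2] at h4
  simp only [List.all_eq_true, List.mem_range, Bool.or_eq_true, bne_iff_ne, beq_iff_eq,
    or_assoc] at h4
  have h6 := (h4 (σ 1) (σ 1).2).resolve_left (not_not.2 (e.2 ▸ h1.1 1))
  have key : ∀ m < 4, (σ 1).1 = m → ∀ k, iter 8 (65536 ^ 1) 0 k = true →
      (∀ c d, k c d = true → iter 8 0 (65536 ^ m) (fin c d) = true) → σ.symm (ρ i) = rr i := by
    intro m hm hs k hk hk'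
    obtain ⟨c, d, c', d', h1, h2, h3⟩ := iter2 h 8 (a := 65536 ^ 1) (b := 0) (a' := 0)
      (b' := 65536 ^ m) ⟨fun k => by
        rw [l16_pow 1 (by norm_num) k k.2, l16_pow m hm _ (σ k).2, ← hs]
        simp only [Fin.val_inj, EmbeddingLike.apply_eq_iff_eq]
        exact if_congr (Fin.ext_iff (b := 1)).symm rfl rfl, fun _ => by simp [z]⟩
    rw [h2] at hk
    have h7 := hk' c d hk
    rw [h3, fin] at h7
    simp only [List.all_eq_true, List.mem_range, Bool.or_eq_true, bne_iff_ne, beq_iff_eq] at h7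
    refine Fin.ext (((h7 i hi (ρ i) (ρ i).2).resolve_left (not_not.2 (h1.2 i)) _
      (σ.symm (ρ i)).2).resolve_left (not_not.2 ?_))
    rw [h1.1, σ.apply_symm_apply]
  rcases h6 with h6 | h6
  · exact key 1 (by norm_num) h6 _ r1 (fun c d h => (Bool.and_eq_true _ _ ▸ h).1)
  · exact key 3 (by norm_num) h6 _ r1 (fun c d h => (Bool.and_eq_true _ _ ▸ h).2)

end Pool.Agent.H.MP_866d96_co
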