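import Pool.Agent.H.MP_866d96_co.H

set_option autoImplicit false
open Module

namespace Pool.Agent.H.MP_866d96_co

def tr (t : ℕ) : ℕ × ℕ := TRI.getD t (0, 0)

lemma htri : ∀ t < 28, (tr t).1 < 204 ∧ (tr t).2 < 204 ∧ nz (tr t).1 (tr t).2 = true ∧
    (∀ s < t, nz (tr t).1 (tr s).2 = false) ∧ ∀ u < 15, nz u (tr t).2 = false := by decide +kernel

def up (u : Fin 15) : Fin 204 := ⟨u, by omega⟩

lemma rank3 {W : Type*} [AddCommGroup W] [Module ℝ W] [FiniteDimensional ℝ W]
    (hW : finrank ℝ W ≤ 40) (z : Fin 204 → W) (f : Fin 204 → W →ₗ[ℝ] ℝ)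
    (h : ∀ i j, f j (z i) = 0 ↔ nz i j = false) :
    3 ≤ finrank ℝ (LinearMap.ker (Fintype.linearCombination ℝ (fun u => z (up u)))) := by
  let R : Fin 28 → Fin 204 := fun t => ⟨_, (htri t t.2).1⟩
  let C : Fin 28 → Fin 204 := fun t => ⟨_, (htri t t.2).2.1⟩
  let Φ : W →ₗ[ℝ] (Fin 28 → ℝ) := LinearMap.pi (fun s => f (C s))
  let M : Matrix (Fin 28) (Fin 28) ℝ := fun t s => f (C s) (z (R t))
  have hM : M.BlockTriangular id := fun t s hs => (h _ _).2 ((htri t t.2).2.2.2.1 s hs)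
  have hd : M.det ≠ 0 := by
    rw [Matrix.det_of_isUpperTriangular hM]
    refine Finset.prod_ne_zero_iff.2 (fun t _ h' => ?_)
    have := (h _ _).1 h'
    rw [(htri t t.2).2.2.1] at this
    exact Bool.noConfusion this
  have hli : LinearIndependent ℝ M.row :=
    Matrix.linearIndependent_rows_iff_isUnit.2 ((Matrix.isUnit_iff_isUnit_det M).2 hd.isUnit)
  have h1 : 28 ≤ finrank ℝ (LinearMap.range Φ) := by
    have h2 := finrank_span_eq_card hli
    rw [Fintype.card_fin] at h2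
    refine h2.symm.le.trans (Submodule.finrank_mono ?_)
    rw [Submodule.span_le]
    rintro _ ⟨t, rfl⟩
    exact ⟨z (R t), rfl⟩
  have h2 := LinearMap.finrank_range_add_finrank_ker Φ
  have h3 := LinearMap.finrank_range_add_finrank_ker
    (Fintype.linearCombination ℝ (fun u => z (up u)))
  have h4 : LinearMap.range (Fintype.linearCombination ℝ (fun u => z (up u))) ≤ LinearMap.ker Φ := by
    rw [Fintype.range_linearCombination, Submodule.span_le]
    rintro _ ⟨u, rfl⟩
    ext s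
    exact (h _ _).2 ((htri s s.2).2.2.2.2 u u.2)
  have h5 := Submodule.finrank_mono h4
  simp at h3
  omega

def zf : List ℕ → List (ℕ × ℕ) → Bool
  | Z, [] => (List.range 15).all fun u => decide (u ∈ Z)
  | Z, p :: r => decide (p.1 < 204) && decide (p.2 < 15) && nz p.2 p.1 &&
      ((List.range 15).all fun u => !nz u p.1 || u == p.2 || decide (u ∈ Z)) && zf (p.2 :: Z) r

section
variable {s : Fin 15 → Fin 204 → ℝ} (h : ∀ u j, s u j = 0 ↔ nz u j = false) {l : Fin 15 → ℝ}
  (hl : ∀ j, ∑ u, l u * s u j = 0)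
include h hl

lemma zf_ok (r : List (ℕ × ℕ)) (Z : List ℕ) (hZ : ∀ u : Fin 15, u.1 ∈ Z → l u = 0)
    (hc : zf Z r = true) : l = 0 := by
  induction r generalizing Z with
  | nil =>
    simp only [zf, List.all_eq_true, List.mem_range, decide_eq_true_eq] at hc
    exact funext fun u => hZ u (hc u u.2)
  | cons p r ih =>
    simp only [zf, Bool.and_eq_true, List.all_eq_true, List.mem_range, decide_eq_true_eq,
      Bool.or_eq_true, Bool.not_eq_true', beq_iff_eq] at hc
    obtain ⟨⟨⟨⟨h1, h2⟩, h3⟩, h4⟩, h5⟩ := hc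
    refine ih _ (fun u hu => ?_) h5
    rcases List.mem_cons.1 hu with hu | hu
    swap
    · exact hZ u hu
    have h6 := hl ⟨p.1, h1⟩
    rw [Finset.sum_eq_single u (fun w _ hw => ?_) (by simp)] at h6
    · refine (mul_eq_zero.1 h6).resolve_right (fun h7 => ?_)
      rw [h, hu, h3] at h7
      exact Bool.noConfusion h7
    · rcases h4 w w.2 with (h7 | h7) | h7
      · rw [(h w ⟨p.1, h1⟩).2 h7, mul_zero]
      · exact absurd (Fin.ext (h7.trans hu.symm)) hw
      · rw [hZ w h7, zero_mul]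

lemma rel (j : Fin 204) (a b c : Fin 15) (hd : a ≠ b ∧ a ≠ c ∧ b ≠ c ∧
    ∀ u : Fin 15, nz u j = true → u = a ∨ u = b ∨ u = c) :
    l a * s a j + l b * s b j + l c * s c j = 0 := by
  rw [← hl j, ← Finset.sum_subset (Finset.subset_univ {a, b, c}) (fun u _ hu => ?_),
    Finset.sum_insert (by simp [hd.1, hd.2.1]), Finset.sum_pair hd.2.2.1, add_assoc]
  rw [(h u j).2, mul_zero]
  by_contra h1
  exact hu (by simpa using hd.2.2.2 u (by simpa using h1))

end

def tau : Fin 15 → Fin 15 := ![2, 3, 0, 1, 5, 4, 6, 8, 7, 10, 9, 12, 11, 13, 14]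

lemma rr_up : ∀ u, rr (up u) = up (tau u) := by decide +kernel

lemma tau_tau : ∀ u, tau (tau u) = u := by decide

lemma alg {x y z q1 q2 q3 a1 a2 a3 s1 s2 s3 p g1 g2 A B C D F G H I J K L M N O Q R : ℝ}
    (hA : A ≠ 0) (hC : C ≠ 0) (hG : G ≠ 0) (hJ : J ≠ 0) (hM : M ≠ 0)
    (hN : N ≠ 0) (hD : D ≠ 0) (hR : R ≠ 0) (h3 : s3 ≠ 0) (hxy : x ≠ y)
    (e1 : y * A + s2 * B = 0) (e2 : z * A + s3 * B = 0) (e3 : q2 * C + s2 * D = 0)
    (e4 : q3 * C + s3 * D = 0) (u1 : g1 * R = 0) (u2 : g2 * R = 0)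
    (e5 : g1 * Q + q1 * F + a2 * G = 0) (e6 : g2 * Q + q3 * F + a3 * G = 0)
    (e7 : p * H + q1 * I + a1 * J = 0) (e8 : p * H + q2 * I + a2 * J = 0)
    (e9 : q3 * I + a3 * J = 0) (f1 : y * K + a1 * L + s1 * M = 0) (f2 : x * K + a2 * L + s2 * M = 0)
    (f3 : z * K + a3 * L + s3 * M = 0) (f4 : x * N + a1 * O = 0) (f5 : y * N + a2 * O = 0) :
    s1 + s2 = 0 := by
  obtain rfl : g1 = 0 := (mul_eq_zero.1 u1).resolve_right hR
  obtain rfl : g2 = 0 := (mul_eq_zero.1 u2).resolve_right hR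
  obtain rfl : y = -B / A * s2 := by field_simp; linarith
  obtain rfl : z = -B / A * s3 := by field_simp; linarith
  obtain rfl : q2 = -D / C * s2 := by field_simp; linarith
  obtain rfl : q3 = -D / C * s3 := by field_simp; linarith
  generalize -B / A = α at *
  have hβ : -D / C ≠ 0 := div_ne_zero (neg_ne_zero.2 hD) hC
  generalize -D / C = β at *
  have e5' : a2 = -F / G * q1 := by field_simp; linarith
  have e6' : a3 = -F / G * (β * s3) := by field_simp; linarith
  generalize -F / G = γ at *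
  have t1 : I = -γ * J := by
    apply mul_left_cancel₀ (mul_ne_zero hβ h3)
    linear_combination e9 - J * e6'
  have t2 : a1 = 2 * a2 - γ * β * s2 := by
    apply mul_left_cancel₀ hJ
    rw [t1] at e7 e8
    linear_combination e7 - e8 - J * e5'
  have t3 : α * K + γ * β * L + M = 0 := by
    apply mul_left_cancel₀ h3
    linear_combination f3 - L * e6'
  have t4 : a2 - γ * β * s2 ≠ 0 := fun h => hxy (by
    apply mul_left_cancel₀ hN
    linear_combination f4 - f5 - O * t2 - O * h)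
  have t5 : O * K - N * L = 0 := by
    apply mul_left_cancel₀ t4
    linear_combination K * f4 - K * f5 - N * f2 + N * s2 * t3 - K * O * t2
  apply mul_left_cancel₀ (mul_ne_zero hM hN)
  linear_combination N * f1 + N * s2 * t3 - 2 * K * f5 - N * L * t2 + 2 * a2 * t5

theorem gale {W : Type*} [AddCommGroup W] [Module ℝ W] [FiniteDimensional ℝ W]
    (hW : finrank ℝ W ≤ 40) (z : Fin 204 → W) (f : Fin 204 → W →ₗ[ℝ] ℝ)
    (h : ∀ i j, f j (z i) = 0 ↔ nz i j = false) (A : W →ₗ[ℝ] W)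
    (hA : ∀ u, z (up (tau u)) = A (z (up u))) : False := by
  have h3 := rank3 hW z f h
  set K := LinearMap.ker (Fintype.linearCombination ℝ (fun u => z (up u))) with hK
  set s : Fin 15 → Fin 204 → ℝ := fun u j => f j (z (up u)) with hs
  have h' : ∀ u j, s u j = 0 ↔ nz u j = false := fun u j => h (up u) j
  have hm : ∀ l, l ∈ K ↔ ∑ u, l u • z (up u) = 0 := fun l => by
    rw [hK, LinearMap.mem_ker, Fintype.linearCombination_apply]
  have hl : ∀ l ∈ K, ∀ j, ∑ u, l u * s u j = 0 := fun l hl j => by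
    have := congrArg (f j) ((hm l).1 hl)
    simpa [map_sum] using this
  have ht : ∀ l ∈ K, l ∘ tau ∈ K := fun l hl => by
    have := congrArg A ((hm l).1 hl)
    rw [hm, ← Equiv.sum_comp (Function.Involutive.toPerm tau tau_tau)]
    simpa [map_sum, ← hA, tau_tau, Function.Involutive.coe_toPerm] using this
  have zz : ∀ (a b c : Fin 15) r, zf [a.1, b.1, c.1] r = true → ∀ l ∈ K, l a = 0 → l b = 0 →
      l c = 0 → l = 0 := fun a b c r hr l hk ha hb hc =>
    zf_ok h' (hl l hk) r _ (fun u hu => by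
      simp only [List.mem_cons, Fin.val_inj, List.not_mem_nil, or_false] at hu
      rcases hu with rfl | rfl | rfl <;> assumption) hr
  have y1 := zz 1 3 13 Z1 (by decide +kernel)
  have y2 := zz 1 3 11 Z2 (by decide +kernel)
  have y3 := zz 13 4 5 Z3 (by decide +kernel)
  have y4 := zz 11 12 13 Z4 (by decide +kernel)
  let ev : K →ₗ[ℝ] (Fin 3 → ℝ) :=
    LinearMap.pi (fun i => LinearMap.proj (![1, 3, 13] i) ∘ₗ K.subtype)
  have hi : Function.Injective ev := (injective_iff_map_eq_zero ev).2 (fun l hl =>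
    Subtype.ext (y1 l.1 l.2 (congrFun hl 0) (congrFun hl 1) (congrFun hl 2)))
  have h4 := LinearMap.finrank_le_finrank_of_injective hi
  have hsur := (LinearMap.injective_iff_surjective_of_finrank_eq_finrank
    (le_antisymm h4 (by simpa using h3))).1 hi
  obtain ⟨⟨k, hk⟩, e1⟩ := hsur ![1, 0, 0]
  obtain ⟨⟨m, hm'⟩, e3⟩ := hsur ![0, 0, 1]
  have k1 : k 1 = 1 := congrFun e1 0
  have k3 : k 3 = 0 := congrFun e1 1
  have k13 : k 13 = 0 := congrFun e1 2
  have m1 : m 1 = 0 := congrFun e3 0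
  have m3 : m 3 = 0 := congrFun e3 1
  have m13 : m 13 = 1 := congrFun e3 2
  have hk' := ht k hk
  have hmt : ∀ u, m (tau u) = m u := fun u => sub_eq_zero.1 (congrFun
    (y1 _ (K.sub_mem (ht m hm') hm') (by simp [tau, m1, m3]) (by simp [tau, m1, m3])
      (by simp [tau])) u)
  have m8 : m 8 = m 7 := hmt 7
  have m5 : m 5 = m 4 := hmt 4
  have r := fun l (hk : l ∈ K) => rel h' (hl l hk)
  have nn : ∀ u j, nz u.1 j.1 = true → s u j ≠ 0 := fun u j h1 h2 => by
    rw [(h' u j).1 h2] at h1; exact Bool.noConfusion h1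
  have a1 := r _ hk' 24 1 4 11 (by decide +kernel)
  have a2 := r _ hm' 24 1 4 11 (by decide +kernel)
  have a3 := r _ hk' 26 1 7 11 (by decide +kernel)
  have a4 := r _ hm' 26 1 7 11 (by decide +kernel)
  have a5 := r _ hk' 16 0 1 2 (by decide +kernel)
  have a6 := r _ hm' 16 0 1 2 (by decide +kernel)
  have a7 := r _ hk' 23 0 8 9 (by decide +kernel)
  have a8 := r _ hm' 23 0 8 9 (by decide +kernel)
  have a9 := r _ hk 36 6 7 9 (by decide +kernel)
  have b1 := r _ hk' 36 6 7 9 (by decide +kernel)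
  have b2 := r _ hm' 36 6 7 9 (by decide +kernel)
  have b3 := r _ hk 29 5 9 11 (by decide +kernel)
  have b4 := r _ hk' 29 5 9 11 (by decide +kernel)
  have b5 := r _ hm' 29 5 9 11 (by decide +kernel)
  have b6 := r _ hk 33 4 9 13 (by decide +kernel)
  have b7 := r _ hk' 33 4 9 13 (by decide +kernel)
  have b8 := r _ hm' 19 1 3 6 (by decide +kernel)
  have s2 : s 2 16 = 0 := (h' 2 16).2 (by decide +kernel)
  have m6 : m 6 = 0 := by
    rw [m1, m3] at b8
    exact (mul_eq_zero.1 (by simpa using b8)).resolve_right (nn 6 19 (by decide +kernel))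
  simp only [Function.comp, tau] at a1 a3 a5 a7 b1 b4 b7
  simp only [Matrix.cons_val, k3, k13, m1, m8, m5, m6, s2, zero_mul, mul_zero, zero_add, add_zero]
    at a1 a2 a3 a4 a5 a6 a7 a8 a9 b1 b2 b3 b4 b5 b6 b7
  have fin := alg (nn 4 24 (by decide +kernel)) (nn 7 26 (by decide +kernel))
    (nn 9 23 (by decide +kernel)) (nn 9 36 (by decide +kernel))
    (nn 11 29 (by decide +kernel)) (nn 4 33 (by decide +kernel))
    (nn 11 26 (by decide +kernel)) (nn 0 16 (by decide +kernel))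
    (fun h0 => by simpa [m13] using congrFun (y2 m hm' m1 m3 h0) 13)
    (fun h0 => by
      simpa [tau, k1, k3] using congrFun (y3 _ (K.sub_mem hk hk') (by simp [tau])
        (by simp [tau, h0]) (by simp [tau, h0])) 1)
    a1 a2 a3 a4 a5 a6 a7 a8 a9 b1 b2 b3 b4 b5 b6 b7
  simpa [tau, k1, k3] using congrFun (y4 _ (K.add_mem hk hk') (by simpa [tau] using fin)
    (by simpa [tau, add_comm] using fin) (by simp [tau, k13])) 1

end Pool.Agent.H.MP_866d96_co
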